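import Pool.Agent.L0h52.VE.Gen

/-! Products of hyperelliptic curves. -/

set_option autoImplicit false

namespace Pool.Agent.L0h52.VE

open NumberField Module Height Polynomial
open Pool.Agent.Y733.VR

theorem Good.mono {M : Type} [Field M] [NumberField M] {f : M[X]} {r : ℕ} {A A' : ℝ} {j : ℕ}
    {x : M} (h : Good f r A j x) (hA : A ≤ A') : Good f r A' j x := by
  obtain ⟨δ, s, h1, h2, h3, h4, h5, h6⟩ := h
  exact ⟨δ, s, h1, h2, h3, h4, h5.trans (by linarith),
    h6.trans (mul_le_mul_of_nonneg_right hA (by positivity))⟩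

theorem multi (k : Type) [Field k] [NumberField k] (f : ℕ → k[X]) (n : ℕ)
    (hf : ∀ i < n, (f i).Separable ∧ 5 ≤ (f i).natDegree) :
    ∃ (K : Type) (_ : Field K) (_ : NumberField K) (_ : Algebra k K) (x : ℕ → ℕ → K) (A : ℝ),
      ∀ i < n, Function.Injective (x i) ∧
        ∀ j, Good ((f i).map (algebraMap k K)) (((f i).natDegree - 3) / 2) A j (x i j) := by
  induction n with
  | zero =>
    exact ⟨k, inferInstance, inferInstance, inferInstance, fun _ _ => 0, 0,
      fun i hi => absurd hi (Nat.not_lt_zero i)⟩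
  | succ n ih =>
    obtain ⟨K, iF, iN, iA, x, A, h⟩ := ih fun i hi => hf i (by omega)
    obtain ⟨h1, h2⟩ := hf n (by omega)
    obtain ⟨M, jF, jN, jA, z, B, hz, hg⟩ := exists_good ((f n).map (algebraMap k K)) h1.map
      (by rwa [natDegree_map])
    let _ : Algebra k M := ((algebraMap K M).comp (algebraMap k K)).toAlgebra
    refine ⟨M, jF, jN, inferInstance, fun i j => if i < n then algebraMap K M (x i j) else z j,
      max A B, fun i hi => ?_⟩
    by_cases hin : i < n
    · obtain ⟨g1, g2⟩ := h i hin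
      simp only [if_pos hin]
      refine ⟨(algebraMap K M).injective.comp g1, fun j => ?_⟩
      have g3 := (g2 j).map (L := M)
      rw [Polynomial.map_map] at g3
      exact g3.mono (le_max_left _ _)
    · have : i = n := by omega
      subst this
      simp only [if_neg hin]
      refine ⟨hz, fun j => ?_⟩
      have g3 := hg j
      rw [Polynomial.map_map, natDegree_map] at g3
      exact g3.mono (le_max_right _ _)

/-- **the main construction** -/
theorem main (k : Type) [Field k] [NumberField k] {n : ℕ} (f : Fin n → k[X])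
    (hf : ∀ i, (f i).Separable ∧ 5 ≤ (f i).natDegree) :
    ∃ (d : ℕ) (A : ℝ), 0 ≤ A ∧ ∀ G : MvPolynomial (Fin n) k, G ≠ 0 → ∀ J : ℕ,
      ∃ (F : Type) (_ : Field F) (_ : NumberField F) (_ : Algebra k F) (x y : Fin n → F),
        (∀ i, y i ^ 2 = aeval (x i) (f i)) ∧ finrank k F ≤ d ∧
        IntermediateField.adjoin k (Set.range x ∪ Set.range y) = ⊤ ∧
        MvPolynomial.aeval x G ≠ 0 ∧
        (∀ i, hh (x i) ≤ A * 4 ^ (J + G.totalDegree)) ∧
        ld F + n * J * (Real.log 2 / 2) ≤
          ∑ i, (((f i).natDegree - 3) / 2 : ℕ) * hh (x i) + A := by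
  classical
  obtain ⟨K, iF, iN, iA, X, A, h⟩ := multi k (fun i => if hi : i < n then f ⟨i, hi⟩ else 0) n
    (fun i hi => by simp only [dif_pos hi]; exact hf ⟨i, hi⟩)
  have h' : ∀ i : Fin n, Function.Injective (X i) ∧
      ∀ j, Good ((f i).map (algebraMap k K)) (((f i).natDegree - 3) / 2) A j (X i j) := by
    intro i
    have := h i i.2
    simp only [dif_pos i.2] at this
    exact this
  have l2 : 0 ≤ Real.log 2 := Real.log_nonneg (by norm_num)
  have hldK : 0 ≤ ld K := by
    unfold ld
    refine div_nonneg (Real.log_nonneg ?_) (Nat.cast_nonneg _)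
    have : (1 : ℤ) ≤ |discr K| := Int.one_le_abs (discr_ne_zero K)
    exact_mod_cast this
  refine ⟨finrank k K * 2 ^ n, |A| + ld K + n * (Real.log 2 + |A| / 2), by positivity,
    fun G hG J => ?_⟩
  -- the point
  set G' : MvPolynomial (Fin n) K := MvPolynomial.map (algebraMap k K) G with hG'
  have hG'0 : G' ≠ 0 := by
    rw [hG']
    exact (MvPolynomial.map_injective _ (algebraMap k K).injective).ne_iff' (map_zero _) |>.2 hG
  set S : Fin n → Finset K := fun i =>
    (Finset.Icc J (J + G.totalDegree)).image (X i) with hS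
  obtain ⟨ξ, hξ, hGξ⟩ : ∃ ξ : Fin n → K, (∀ i, ξ i ∈ S i) ∧ MvPolynomial.eval ξ G' ≠ 0 := by
    by_contra hcon
    push Not at hcon
    apply hG'0
    refine MvPolynomial.eq_zero_of_eval_zero_at_prod_finset G' S (fun i => ?_) hcon
    rw [hS]
    simp only
    rw [Finset.card_image_of_injective _ (h' i).1, Nat.card_Icc]
    have h1 : G'.degreeOf i ≤ G.degreeOf i := by
      rw [hG', MvPolynomial.degreeOf_eq_sup, MvPolynomial.degreeOf_eq_sup]
      exact Finset.sup_mono (MvPolynomial.support_map_subset _ _)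
    have h2 := MvPolynomial.degreeOf_le_totalDegree G i
    omega
  have hj : ∀ i : Fin n, ∃ j, (J ≤ j ∧ j ≤ J + G.totalDegree) ∧ X i j = ξ i := by
    intro i
    have := hξ i
    rw [hS] at this
    obtain ⟨j, h1, h2⟩ := Finset.mem_image.1 this
    exact ⟨j, Finset.mem_Icc.1 h1, h2⟩
  choose j hj1 hj2 using hj
  have hgood : ∀ i, Good ((f i).map (algebraMap k K)) (((f i).natDegree - 3) / 2) A (j i) (ξ i) := by
    intro i
    have := (h' i).2 (j i)
    rwa [hj2] at this
  choose δ s hs0 hδ0 hδi heq hln hht using hgood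
  -- the square roots
  set a : ℕ → K := fun i => if hi : i < n then δ ⟨i, hi⟩ else 0 with ha
  obtain ⟨M, jF, jN, jA, b, hb1, hb2, hb3⟩ := tower_sqrt n K a (fun i hi => by
    rw [ha]; simp only [dif_pos hi]; exact ⟨hδ0 _, hδi _⟩)
  let _ : Algebra k M := ((algebraMap K M).comp (algebraMap k K)).toAlgebra
  have hst : IsScalarTower k K M := IsScalarTower.of_algebraMap_eq (fun x => rfl)
  have hfdM : FiniteDimensional k M := inferInstance
  set x' : Fin n → M := fun i => algebraMap K M (ξ i) with hx'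
  set y' : Fin n → M := fun i => b i * algebraMap K M (s i) with hy'
  have hxy : ∀ i, y' i ^ 2 = aeval (x' i) (f i) := by
    intro i
    have h1 := hb1 i i.2
    have h2 : a i = δ i := by rw [ha]; simp only [dif_pos i.2]
    rw [h2] at h1
    rw [hy', hx']
    simp only
    rw [mul_pow, h1, ← map_pow, ← map_mul, ← heq i, eval_map_algebraMap, ← aeval_algebraMap_apply]
  set Sg : Set M := Set.range x' ∪ Set.range y' with hSg
  set F := IntermediateField.adjoin k Sg with hF
  have hNFF : NumberField F := NumberField.of_module_finite k F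
  have hxF : ∀ i, x' i ∈ F := fun i =>
    IntermediateField.subset_adjoin k Sg (Or.inl ⟨i, rfl⟩)
  have hyF : ∀ i, y' i ∈ F := fun i =>
    IntermediateField.subset_adjoin k Sg (Or.inr ⟨i, rfl⟩)
  have hhx : ∀ i, hh (⟨x' i, hxF i⟩ : F) = hh (ξ i) := by
    intro i
    rw [← hh_ext M (⟨x' i, hxF i⟩ : F), ← hh_ext M (ξ i)]
    rfl
  refine ⟨F, inferInstance, hNFF, inferInstance, fun i => ⟨x' i, hxF i⟩, fun i => ⟨y' i, hyF i⟩,
    ?_, ?_, ?_, ?_, ?_, ?_⟩
  · intro i
    apply (algebraMap F M).injective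
    rw [map_pow, ← aeval_algebraMap_apply]
    exact hxy i
  · calc finrank k F ≤ finrank k M :=
          Submodule.finrank_le (Subalgebra.toSubmodule F.toSubalgebra)
      _ = finrank k K * finrank K M := (finrank_mul_finrank k K M).symm
      _ ≤ finrank k K * 2 ^ n := Nat.mul_le_mul_left _ hb2
  · refine adjoin_self_top Sg _ ?_
    ext z
    constructor
    · rintro ⟨w, hw, rfl⟩
      rcases hw with ⟨i, rfl⟩ | ⟨i, rfl⟩
      · exact Or.inl ⟨i, rfl⟩
      · exact Or.inr ⟨i, rfl⟩
    · rintro (⟨i, rfl⟩ | ⟨i, rfl⟩)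
      · exact ⟨⟨x' i, hxF i⟩, Or.inl ⟨i, rfl⟩, rfl⟩
      · exact ⟨⟨y' i, hyF i⟩, Or.inr ⟨i, rfl⟩, rfl⟩
  · intro h0
    apply hGξ
    have h1 : MvPolynomial.aeval x' G = 0 := by
      have h2 := congrArg (algebraMap F M) h0
      rw [map_zero, ← MvPolynomial.aeval_algebraMap_apply] at h2
      exact h2
    have h1' : MvPolynomial.aeval (algebraMap K M ∘ ξ) G = 0 := h1
    rw [MvPolynomial.aeval_algebraMap_apply] at h1'
    have h3 := (map_eq_zero_iff _ (algebraMap K M).injective).1 h1'
    rw [hG', MvPolynomial.eval_map, ← MvPolynomial.aeval_def]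
    exact h3
  · intro i
    rw [hhx]
    refine (hht i).trans ?_
    have e1 : A * 4 ^ j i ≤ |A| * 4 ^ j i := mul_le_mul_of_nonneg_right (le_abs_self A)
      (by positivity)
    have e2 : |A| * 4 ^ j i ≤ |A| * 4 ^ (J + G.totalDegree) :=
      mul_le_mul_of_nonneg_left (pow_le_pow_right₀ (by norm_num) (hj1 i).2) (abs_nonneg A)
    have e3 : |A| * 4 ^ (J + G.totalDegree) ≤
        (|A| + ld K + n * (Real.log 2 + |A| / 2)) * 4 ^ (J + G.totalDegree) := by
      refine mul_le_mul_of_nonneg_right ?_ (by positivity)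
      have : 0 ≤ (n : ℝ) * (Real.log 2 + |A| / 2) := by positivity
      linarith
    linarith
  · have h1 : ld F ≤ ld M := ld_mono F M
    have h2 : ∑ i ∈ Finset.range n, (Real.log 2 + ln (a i) / 2) =
        ∑ i : Fin n, (Real.log 2 + ln (δ i) / 2) := by
      rw [Finset.sum_range]
      refine Finset.sum_congr rfl fun i _ => ?_
      rw [ha]
      simp only [dif_pos i.2]
    have h3 : ∀ i : Fin n, Real.log 2 + ln (δ i) / 2 ≤ (((f i).natDegree - 3) / 2 : ℕ) * hh (ξ i) +
        (Real.log 2 + |A| / 2) - J * (Real.log 2 / 2) := by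
      intro i
      have e1 := hln i
      have e2 : (J : ℝ) ≤ j i := by exact_mod_cast (hj1 i).1
      have e3 := mul_le_mul_of_nonneg_right e2 l2
      have e4 := le_abs_self A
      linarith
    have h4 : ∑ i : Fin n, (Real.log 2 + ln (δ i) / 2) ≤
        ∑ i : Fin n, ((((f i).natDegree - 3) / 2 : ℕ) * hh (ξ i) +
          (Real.log 2 + |A| / 2) - J * (Real.log 2 / 2)) := Finset.sum_le_sum fun i _ => h3 i
    rw [h2] at hb3
    simp only [Finset.sum_sub_distrib, Finset.sum_add_distrib, Finset.sum_const,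
      Finset.card_univ, Fintype.card_fin, nsmul_eq_mul] at h4 hb3
    have h5 : ∑ i : Fin n, (((f i).natDegree - 3) / 2 : ℕ) * hh (⟨x' i, hxF i⟩ : F) =
        ∑ i : Fin n, (((f i).natDegree - 3) / 2 : ℕ) * hh (ξ i) :=
      Finset.sum_congr rfl fun i _ => by rw [hhx]
    rw [h5]
    have := abs_nonneg A
    linarith

end Pool.Agent.L0h52.VE
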