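import Pool.Agent.L0h52.VE.Poly
import Pool.Agent.Y733.VR.Root

/-! Extensions by square roots of integral elements. -/

set_option autoImplicit false

namespace Pool.Agent.L0h52.VE

open NumberField Module Polynomial IntermediateField
open Pool.Agent.Y733.VR

theorem ln_ext (K L : Type) [Field K] [NumberField K] [Field L] [NumberField L] [Algebra K L]
    (x : K) : ln (algebraMap K L x) = ln x := by
  unfold ln
  have h1 : Algebra.norm ℚ (algebraMap K L x) = Algebra.norm ℚ x ^ finrank K L := by
    rw [← Algebra.norm_norm (S := K), Algebra.norm_algebraMap, map_pow]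
  have h2 : (0 : ℝ) < finrank K L := by
    have : FiniteDimensional K L := inferInstance
    exact_mod_cast finrank_pos
  have h3 : (0 : ℝ) < finrank ℚ K := deg_pos
  rw [h1, finrank_tower K L]
  push_cast
  rw [abs_pow, Real.log_pow]
  field_simp

/-- the discriminant of the extension by the square root of an integral element -/
theorem ld_sqrt_int (L M : Type) [Field L] [NumberField L] [Field M] [NumberField M] [Algebra L M]
    {u : L} (hu0 : u ≠ 0) (hu : IsIntegral ℤ u) {v : M} (hv : v ^ 2 = algebraMap L M u)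
    (htop : L⟮v⟯ = ⊤) : ld M ≤ ld L + Real.log 2 + ln u / 2 := by
  have hu' : algebraMap L M u ≠ 0 := by
    rwa [Ne, FaithfulSMul.algebraMap_eq_zero_iff]
  have hv0 : v ≠ 0 := by
    rintro rfl
    apply hu'
    rw [← hv]; ring
  have hvint : IsIntegral ℤ v := IsIntegral.of_pow (n := 2) two_pos (by
    rw [hv]; exact isIntegral_map _ hu)
  set β : 𝓞 M := ⟨v, hvint⟩ with hβ
  set a : 𝓞 L := ⟨u, hu⟩ with ha
  have hroot : aeval β (X ^ 2 - C a : (𝓞 L)[X]) = 0 := by
    apply RingOfIntegers.coe_injective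
    rw [map_sub, map_pow, aeval_X, aeval_C, map_sub, map_pow, map_zero]
    have : algebraMap (𝓞 M) M (algebraMap (𝓞 L) (𝓞 M) a) = algebraMap L M u := rfl
    rw [this, ← hv]
    exact sub_self _
  have hder : aeval β (derivative (X ^ 2 - C a : (𝓞 L)[X])) = 2 * β := by
    simp
    left
    norm_num
  have h3 : ((2 * β : 𝓞 M) : M) = 2 * v := by
    push_cast
    rfl
  have h := ld_le L M β htop (X ^ 2 - C a) hroot (by
    rw [hder]
    intro h0
    have h2 : ((2 * β : 𝓞 M) : M) = 0 := by rw [h0]; rfl
    rw [h3] at h2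
    exact (mul_ne_zero two_ne_zero hv0) h2)
  rw [hder, h3] at h
  have h5 : ln (2 * v : M) = Real.log 2 + ln u / 2 := by
    have e1 : ln (v * v) = ln u := by
      rw [← pow_two, hv, ln_ext]
    rw [ln_mul _ _ hv0 hv0] at e1
    have e2 : ln ((2 : ℕ) : M) = Real.log ((2 : ℕ) : ℝ) := ln_natCast 2 (by norm_num)
    push_cast at e2
    rw [ln_mul _ _ two_ne_zero hv0, e2]
    linarith
  unfold ln at h5
  unfold ln
  linarith

/-- adjoining square roots of integral elements -/
theorem tower_sqrt (s : ℕ) (L : Type) [Field L] [NumberField L] (a : ℕ → L)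
    (ha : ∀ j < s, a j ≠ 0 ∧ IsIntegral ℤ (a j)) :
    ∃ (M : Type) (_ : Field M) (_ : NumberField M) (_ : Algebra L M) (b : ℕ → M),
      (∀ j < s, b j ^ 2 = algebraMap L M (a j)) ∧ finrank L M ≤ 2 ^ s ∧
      ld M ≤ ld L + ∑ j ∈ Finset.range s, (Real.log 2 + ln (a j) / 2) := by
  induction s with
  | zero =>
    refine ⟨L, inferInstance, inferInstance, inferInstance, fun _ => 0,
      fun j hj => absurd hj (Nat.not_lt_zero j), ?_, ?_⟩
    · rw [finrank_self, pow_zero]
    · simp
  | succ s ih =>
    obtain ⟨M₁, iF, iN, iA, b, h2, h3, h4⟩ := ih fun j hj => ha j (by omega)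
    obtain ⟨σ⟩ : Nonempty (M₁ →+* ℂ) := inferInstance
    obtain ⟨z, hz⟩ := IsAlgClosed.exists_pow_nat_eq (σ (algebraMap L M₁ (a s))) (n := 2) two_pos
    obtain ⟨M, jF, jN, jA, τ', c, g1, g0, g2, g3, g4⟩ := ext_sqrt M₁ σ (algebraMap L M₁ (a s)) z hz
    let _ : Algebra L M := ((algebraMap M₁ M).comp (algebraMap L M₁)).toAlgebra
    have hst : IsScalarTower L M₁ M := IsScalarTower.of_algebraMap_eq (fun x => rfl)
    refine ⟨M, jF, jN, inferInstance, fun i => if i < s then algebraMap M₁ M (b i) else c,
      ?_, ?_, ?_⟩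
    · intro j hj
      by_cases hjs : j < s
      · simp only [if_pos hjs]
        rw [← map_pow, h2 j hjs]
        rfl
      · have : j = s := by omega
        subst this
        simp only [if_neg hjs]
        rw [g2]
        rfl
    · rw [← finrank_mul_finrank L M₁ M, pow_succ]
      exact Nat.mul_le_mul h3 g4
    · obtain ⟨a1, a2⟩ := ha s (by omega)
      have h8 := ld_sqrt_int M₁ M (u := algebraMap L M₁ (a s))
        (by rwa [Ne, FaithfulSMul.algebraMap_eq_zero_iff]) (isIntegral_map _ a2) g2 g3
      rw [ln_ext] at h8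
      rw [Finset.sum_range_succ]
      linarith

end Pool.Agent.L0h52.VE
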