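import Pool.Agent.L0h52.VE.Odd
import Pool.Agent.L0h52.VE.Sq

/-! Points with small discriminants on `y² = f(x)`. -/

set_option autoImplicit false

namespace Pool.Agent.L0h52.VE

open NumberField Module Height Polynomial
open Pool.Agent.Y733.VR

theorem exists_two_sqrt (L : Type) [Field L] [NumberField L] (c₁ c₂ : L) :
    ∃ (M : Type) (_ : Field M) (_ : NumberField M) (_ : Algebra L M) (s₁ s₂ : M),
      s₁ ^ 2 = algebraMap L M c₁ ∧ s₂ ^ 2 = algebraMap L M c₂ := by
  obtain ⟨σ⟩ : Nonempty (L →+* ℂ) := inferInstance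
  obtain ⟨z, hz⟩ := IsAlgClosed.exists_pow_nat_eq (σ c₁) (n := 2) two_pos
  obtain ⟨M₁, iF, iN, iA, τ, b, h1, -, h2, -, -⟩ := ext_sqrt L σ c₁ z hz
  obtain ⟨z', hz'⟩ := IsAlgClosed.exists_pow_nat_eq (τ (algebraMap L M₁ c₂)) (n := 2) two_pos
  obtain ⟨M, jF, jN, jA, τ', b', g1, -, g2, -, -⟩ := ext_sqrt M₁ τ (algebraMap L M₁ c₂) z' hz'
  let _ : Algebra L M := ((algebraMap M₁ M).comp (algebraMap L M₁)).toAlgebra
  refine ⟨M, jF, jN, inferInstance, algebraMap M₁ M b, b', ?_, ?_⟩
  · rw [← map_pow, h2]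
    rfl
  · rw [g2]
    rfl

theorem exists_e_ext {L : Type} [Field L] [NumberField L] (a : L) : ∃ e : ℕ,
    ∀ (M : Type) [Field M] [NumberField M] [Algebra L M] (v : FinitePlace M), v (2 : M) < 1 →
      v (algebraMap L M a) * v (2 : M) ^ e ≤ 1 := by
  obtain ⟨n, hn, b, hb, -⟩ := exists_nat_ne_zero_exists_integer_mul_eq_and_absNorm_span_eq_pow a
  obtain ⟨e, m, hm, rfl⟩ := Nat.exists_eq_two_pow_mul_odd hn
  refine ⟨e, fun M _ _ _ v hv => ?_⟩
  have h1 : v ((((2 ^ e * m : ℕ) : M)) * algebraMap L M a) ≤ 1 := by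
    have h2 : (((2 ^ e * m : ℕ) : M)) * algebraMap L M a = algebraMap L M (b : L) := by
      rw [← hb, map_mul, map_natCast]
    rw [h2]
    exact place_le_one v (isIntegral_map _ b.isIntegral_coe)
  rw [map_mul] at h1
  push_cast at h1
  rw [map_mul, map_pow, pl_odd v hv hm, mul_one] at h1
  linarith

theorem start_of {M : Type} [Field M] [NumberField M] {a b x₀ s : M} {ea eb ex l : ℕ}
    {v : FinitePlace M} (hv : v (2 : M) < 1)
    (ha : v a * v (2 : M) ^ ea ≤ 1) (hb : v b * v (2 : M) ^ eb ≤ 1)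
    (hx : v x₀ * v (2 : M) ^ ex ≤ 1) (hl : ea + eb + ex < l)
    (hon : OnC a b ((4 : M) ^ l, 2 ^ l * s)) :
    Start v a b x₀ ((4 : M) ^ l, 2 ^ l * s) := by
  have t0 : 0 < v (2 : M) := two_pos_place v
  have e4 : v ((4 : M) ^ l) = v (2 : M) ^ (2 * l) := by
    rw [show (4 : M) = 2 ^ 2 by norm_num, ← pow_mul, map_pow]
  have hlt : ∀ (c : M) (e n : ℕ), v c * v (2 : M) ^ e ≤ 1 → e < n → v c * v (2 : M) ^ n < 1 := by
    intro c e n hc hn
    have h1 : v (2 : M) ^ n = v (2 : M) ^ e * v (2 : M) ^ (n - e) := by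
      rw [← pow_add]; congr 1; omega
    have h2 : v (2 : M) ^ (n - e) < 1 := pow_lt_one₀ t0.le hv (by omega)
    rw [h1, ← mul_assoc]
    have h3 : 0 ≤ v c * v (2 : M) ^ e := mul_nonneg (apply_nonneg v _) (by positivity)
    have h4 : 0 < v (2 : M) ^ (n - e) := by positivity
    nlinarith
  have hS : Small v a b ((4 : M) ^ l) := by
    refine ⟨pow_ne_zero _ (by norm_num), ?_, ?_⟩
    · rw [map_mul, e4]
      exact hlt a ea _ ha (by omega)
    · rw [map_mul, map_pow, e4, ← pow_mul]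
      exact hlt b eb _ hb (by omega)
  have hw := hS.w (p := ((4 : M) ^ l, 2 ^ l * s)) hon
  have hu1 : v ((4 : M) ^ l) ≤ 1 := by
    rw [e4]
    exact pow_le_one₀ t0.le hv.le
  refine ⟨hS, ?_, hu1, ?_⟩
  · show v (x₀ * 4 ^ l) < 1
    rw [map_mul, e4]
    exact hlt x₀ ex _ hx (by omega)
  · have h1 : v ((2 : M) ^ l * s) ^ 2 ≤ 1 := by
      have : v ((2 : M) ^ l * s) ^ 2 = v ((4 : M) ^ l) := hw
      rw [this]
      exact hu1
    have h2 : 0 ≤ v ((2 : M) ^ l * s) := apply_nonneg v _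
    show v ((2 : M) ^ l * s) ≤ 1
    nlinarith

/-- the polynomial with the roots `T` -/
noncomputable def pol {L : Type} [Field L] (c : L) (T : Finset L) : L[X] :=
  C c * ∏ e ∈ T, (X - C e)

theorem pol_map {L M : Type} [Field L] [Field M] [Algebra L M] [DecidableEq M] (c : L) (T : Finset L) :
    (pol c T).map (algebraMap L M) = pol (algebraMap L M c) (T.image (algebraMap L M)) := by
  unfold pol
  rw [Polynomial.map_mul, Polynomial.map_prod, map_C,
    Finset.prod_image fun x _ y _ h => (algebraMap L M).injective h]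
  congr 1
  refine Finset.prod_congr rfl fun e _ => ?_
  rw [Polynomial.map_sub, map_X, map_C]

theorem natDegree_pol {L : Type} [Field L] {c : L} (hc : c ≠ 0) (T : Finset L) :
    (pol c T).natDegree = T.card := by
  unfold pol
  rw [natDegree_C_mul hc, natDegree_prod_of_monic _ _ fun e _ => monic_X_sub_C e]
  simp

/-- odd degree -/
theorem odd_pol {L : Type} [Field L] [NumberField L] {c : L} (hc : c ≠ 0) (T : Finset L) {r : ℕ}
    (hT : T.card = 2 * r + 3) (hr : 1 ≤ r) :
    ∃ (M : Type) (_ : Field M) (_ : NumberField M) (_ : Algebra L M) (x : ℕ → M) (A : ℝ),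
      Function.Injective x ∧ ∀ j, Good ((pol c T).map (algebraMap L M)) r A j (x j) := by
  classical
  obtain ⟨e₁, he₁⟩ : ∃ e, e ∈ T := Finset.card_pos.1 (by omega)
  obtain ⟨e₂, he₂⟩ : ∃ e, e ∈ T.erase e₁ :=
    Finset.card_pos.1 (by rw [Finset.card_erase_of_mem he₁]; omega)
  have c1 : (T.erase e₁).card = 2 * r + 2 := by rw [Finset.card_erase_of_mem he₁]; omega
  have c2 : ((T.erase e₁).erase e₂).card = 2 * r + 1 := by
    rw [Finset.card_erase_of_mem he₂]; omega
  obtain ⟨e₃, he₃⟩ : ∃ e, e ∈ (T.erase e₁).erase e₂ := Finset.card_pos.1 (by omega)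
  have c3 : (((T.erase e₁).erase e₂).erase e₃).card = 2 * r := by
    rw [Finset.card_erase_of_mem he₃]; omega
  obtain ⟨e₅, he₅⟩ : ∃ e, e ∈ ((T.erase e₁).erase e₂).erase e₃ := Finset.card_pos.1 (by omega)
  set T' := ((T.erase e₁).erase e₂).erase e₃ with hT'
  have m5 := he₅
  simp only [hT', Finset.mem_erase] at m5
  obtain ⟨h53, h52, h51, -⟩ := m5
  set a := (e₁ - e₂) + (e₁ - e₃) with ha
  set b := (e₁ - e₂) * (e₁ - e₃) with hb
  obtain ⟨ea, hea⟩ := exists_e_ext a
  obtain ⟨eb, heb⟩ := exists_e_ext b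
  obtain ⟨ex, hex⟩ := exists_e_ext (e₅ - e₁)
  set l := ea + eb + ex + 1 with hl
  obtain ⟨M, iF, iN, iA, s, y₀, hs, hy₀⟩ := exists_two_sqrt L (1 + a * 4 ^ l + b * (4 ^ l) ^ 2)
    ((e₅ - e₁) * (e₅ - e₂) * (e₅ - e₃))
  have inj := (algebraMap L M).injective
  have hon : OnC (algebraMap L M a) (algebraMap L M b) ((4 : M) ^ l, 2 ^ l * s) := by
    unfold OnC
    simp only
    rw [mul_pow, hs, ← pow_mul, mul_comm l 2, pow_mul, show (2 : M) ^ 2 = 4 by norm_num]
    simp only [map_add, map_mul, map_one, map_pow, map_ofNat]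
  have hprod : pol c T = (X - C e₁) * (X - C e₂) * (X - C e₃) * pol c T' := by
    unfold pol
    rw [← Finset.mul_prod_erase T _ he₁, ← Finset.mul_prod_erase (T.erase e₁) _ he₂,
      ← Finset.mul_prod_erase ((T.erase e₁).erase e₂) _ he₃]
    ring
  have hq0 : pol c T' ≠ 0 := by
    unfold pol
    exact mul_ne_zero (C_ne_zero.2 hc) (Finset.prod_ne_zero_iff.2 fun e _ => X_sub_C_ne_zero e)
  obtain ⟨x, A, hx1, hx2⟩ := odd_case (K := M) (f := (pol c T).map (algebraMap L M))
    (q := (pol c T').map (algebraMap L M)) (e₁ := algebraMap L M e₁) (e₂ := algebraMap L M e₂)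
    (e₃ := algebraMap L M e₃) (e₅ := algebraMap L M e₅) (y₀ := y₀) (r := r)
    (p := ((4 : M) ^ l, 2 ^ l * s)) (by
      rw [hprod]
      simp only [Polynomial.map_mul, Polynomial.map_sub, map_X, map_C])
    ((Polynomial.map_ne_zero_iff inj).2 hq0)
    (by
      rw [natDegree_map, natDegree_pol hc, c3])
    (by
      rw [eval_map_algebraMap, aeval_algebraMap_apply]
      have : (pol c T').eval e₅ = 0 := by
        unfold pol
        rw [eval_mul, eval_prod, Finset.prod_eq_zero he₅, mul_zero]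
        simp
      have h2 : aeval e₅ (pol c T') = 0 := by rw [← this]; rfl
      rw [h2, map_zero])
    (fun h => h51 (inj h)) (fun h => h52 (inj h)) (fun h => h53 (inj h))
    (by rw [hy₀]; simp only [map_mul, map_sub])
    (by
      have e1 : (algebraMap L M e₁ - algebraMap L M e₂) + (algebraMap L M e₁ - algebraMap L M e₃) =
        algebraMap L M a := by rw [ha]; simp only [map_add, map_sub]
      have e2 : (algebraMap L M e₁ - algebraMap L M e₂) * (algebraMap L M e₁ - algebraMap L M e₃) =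
        algebraMap L M b := by rw [hb]; simp only [map_mul, map_sub]
      rw [e1, e2]
      exact hon)
    (fun v hv => by
      have e1 : (algebraMap L M e₁ - algebraMap L M e₂) + (algebraMap L M e₁ - algebraMap L M e₃) =
        algebraMap L M a := by rw [ha]; simp only [map_add, map_sub]
      have e2 : (algebraMap L M e₁ - algebraMap L M e₂) * (algebraMap L M e₁ - algebraMap L M e₃) =
        algebraMap L M b := by rw [hb]; simp only [map_mul, map_sub]
      have e3 : algebraMap L M e₅ - algebraMap L M e₁ = algebraMap L M (e₅ - e₁) := by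
        rw [map_sub]
      rw [e1, e2, e3]
      exact start_of hv (hea M v hv) (heb M v hv) (hex M v hv) (by omega) hon)
  exact ⟨M, iF, iN, iA, x, A, hx1, hx2⟩

end Pool.Agent.L0h52.VE
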