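import Pool.Agent.L0h52.VE.Tr

/-! The sequence on an elliptic curve. -/

set_option autoImplicit false

namespace Pool.Agent.L0h52.VE

open NumberField Module Height
open Pool.Agent.Y733.VR

variable {K : Type} [Field K] [NumberField K]

theorem hh_two : hh (2 : K) = Real.log 2 := by
  have := hh_natCast (K := K) 2
  push_cast at this
  exact this

theorem hh_w_le (a b : K) {p : K × K} (hp : OnC a b p) :
    2 * hh p.2 ≤ 4 * hh p.1 + (hh a + hh b + 2 * Real.log 2) := by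
  have h1 : hh (p.2 ^ 2) = 2 * hh p.2 := by rw [hh_pow]; norm_num
  rw [← h1, hp]
  have h2 := hh_mul_le p.1 (1 + a * p.1 + b * p.1 ^ 2)
  have h3 := hh_add_le (1 + a * p.1) (b * p.1 ^ 2)
  have h4 := hh_add_le 1 (a * p.1)
  have h5 := hh_mul_le a p.1
  have h6 := hh_mul_le b (p.1 ^ 2)
  have h7 : hh (p.1 ^ 2) = 2 * hh p.1 := by rw [hh_pow]; norm_num
  have h8 : hh (1 : K) = 0 := hh_one
  linarith

theorem hh_trX_le (a b x₀ y₀ : K) : ∃ C : ℝ, 0 ≤ C ∧ ∀ p : K × K, OnC a b p →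
    hh (trX a b x₀ y₀ p) ≤ 9 * hh p.1 + C := by
  set c₁ := b + 2 * a * x₀ + 3 * x₀ ^ 2 with hc₁
  set c₃ := y₀ ^ 2 - a * x₀ ^ 2 - 2 * x₀ ^ 3 with hc₃
  have n0 : ∀ x : K, 0 ≤ hh x := hh_nonneg
  have l2 : 0 ≤ Real.log 2 := Real.log_nonneg (by norm_num)
  refine ⟨3 * hh x₀ + hh c₁ + hh c₃ + hh (2 * y₀) + (hh a + hh b + 2 * Real.log 2) +
    5 * Real.log 2, by linarith [n0 x₀, n0 c₁, n0 c₃, n0 (2 * y₀), n0 a, n0 b], fun p hp => ?_⟩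
  have hw := hh_w_le a b hp
  obtain ⟨u, w⟩ := p
  simp only at hw
  have e1 : trX a b x₀ y₀ (u, w) = x₀ + (c₁ * u - 2 * y₀ * w + c₃ * u ^ 2) / (1 - x₀ * u) ^ 2 := rfl
  rw [e1]
  have h1 := hh_add_le x₀ ((c₁ * u - 2 * y₀ * w + c₃ * u ^ 2) / (1 - x₀ * u) ^ 2)
  have h2 := hh_div_le (c₁ * u - 2 * y₀ * w + c₃ * u ^ 2) ((1 - x₀ * u) ^ 2)
  have h3 := hh_add_le (c₁ * u - 2 * y₀ * w) (c₃ * u ^ 2)
  have h4 := hh_sub_le (c₁ * u) (2 * y₀ * w)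
  have h5 := hh_mul_le c₁ u
  have h6 := hh_mul_le (2 * y₀) w
  have h7 := hh_mul_le c₃ (u ^ 2)
  have h8 : hh (u ^ 2) = 2 * hh u := by rw [hh_pow]; norm_num
  have h9 : hh ((1 - x₀ * u) ^ 2) = 2 * hh (1 - x₀ * u) := by rw [hh_pow]; norm_num
  have h10 := hh_sub_le 1 (x₀ * u)
  have h11 := hh_mul_le x₀ u
  have h12 : hh (1 : K) = 0 := hh_one
  have := n0 w
  simp only
  linarith [n0 a, n0 b, n0 u]

/-- **the sequence** -/
theorem exists_seq {a b x₀ y₀ : K} {p : K × K} (hp : OnC a b p)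
    (h0 : y₀ ^ 2 = x₀ ^ 3 + a * x₀ ^ 2 + b * x₀) (hy : y₀ ≠ 0)
    (hs : ∀ v : FinitePlace K, v (2 : K) < 1 → Start v a b x₀ p) :
    ∃ (x : ℕ → K) (e : ℕ) (C : ℝ), Function.Injective x ∧
      (∀ j, ∃ y, y ^ 2 = x j ^ 3 + a * x j ^ 2 + b * x j) ∧
      (∀ j, ∀ v : FinitePlace K, v (2 : K) < 1 → v (x j - x₀) * v (2 : K) ^ e ≤ v (2 : K) ^ j) ∧
      (∀ j, hh (x j) ≤ C * 4 ^ j) := by
  obtain ⟨v₀, hv₀⟩ := exists_place_two K
  have hs₀ := hs v₀ hv₀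
  obtain ⟨j₀, hj₀⟩ := hs₀.exact hv₀ hp hy
  obtain ⟨e₁, he₁⟩ := exists_e (b + 2 * a * x₀ + 3 * x₀ ^ 2)
  obtain ⟨e₂, he₂⟩ := exists_e y₀
  obtain ⟨e₃, he₃⟩ := exists_e (y₀ ^ 2 - a * x₀ ^ 2 - 2 * x₀ ^ 3)
  obtain ⟨C₁, hC₁, g₁⟩ := hh_stp a b
  obtain ⟨C₂, hC₂, g₂⟩ := hh_trX_le a b x₀ y₀
  have hu : ∀ j, hh (itr a b p j).1 ≤ (|hh p.1| + C₁) * 4 ^ j - C₁ / 3 := by
    intro j
    have := hh_pow_le (f := fun j => hh (itr a b p j).1) hC₁ (fun j => by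
      obtain ⟨-, -, a3, a4⟩ := itr_props hs₀.small hp j
      show hh (itr a b p (j + 1)).1 ≤ _
      rw [itr_succ]
      exact g₁ _ a4 a3.D_ne) j
    exact this
  refine ⟨fun j => trX a b x₀ y₀ (itr a b p (j + j₀)), e₁ + e₂ + e₃,
    (9 * (|hh p.1| + C₁) + C₂) * 4 ^ j₀, ?_, ?_, ?_, ?_⟩
  · intro i j hij
    have hi := hj₀ (i + j₀) (by omega)
    have hj := hj₀ (j + j₀) (by omega)
    simp only at hij
    rw [hij, hj] at hi
    have hpos : 0 < v₀ (2 * y₀ * p.2) := FinitePlace.pos_iff.2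
      (mul_ne_zero (mul_ne_zero two_ne_zero hy) (hs₀.small.w_ne hp))
    have h1 := mul_left_cancel₀ hpos.ne' hi
    have h2 := (pow_right_strictAnti₀ (two_pos_place v₀) hv₀).injective h1
    omega
  · intro j
    obtain ⟨-, -, a3, a4⟩ := itr_props hs₀.small hp (j + j₀)
    refine trX_sq a4 a3.pos h0 ?_
    intro h1
    have h2 := hs₀.den hp (j + j₀)
    rw [h1, map_zero] at h2
    exact zero_ne_one h2
  · intro j v hv
    have h1 := (hs v hv).upper hv hp (y₀ := y₀) (e := e₁ + e₂ + e₃)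
      (e_mono hv (by omega) (he₁ v hv)) (e_mono hv (by omega) (he₂ v hv))
      (e_mono hv (by omega) (he₃ v hv)) (j + j₀)
    exact h1.trans (pow_le_pow_of_le_one (two_pos_place v).le hv.le (by omega))
  · intro j
    obtain ⟨-, -, a3, a4⟩ := itr_props hs₀.small hp (j + j₀)
    have h1 := g₂ _ a4
    have h2 := hu (j + j₀)
    have h3 : (1 : ℝ) ≤ 4 ^ (j + j₀) := one_le_pow₀ (by norm_num)
    have h4 : (9 * (|hh p.1| + C₁) + C₂) * 4 ^ j₀ * 4 ^ j =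
        9 * ((|hh p.1| + C₁) * 4 ^ (j + j₀)) + C₂ * 4 ^ (j + j₀) := by
      rw [pow_add]; ring
    rw [h4]
    nlinarith

end Pool.Agent.L0h52.VE
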