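import Pool.Agent.L0h52.VE.Poly

/-! Duplication near the origin of the elliptic curve `y² = x³ + a x² + b x`, in the coordinates
`u = 1 / x`, `w = y / x²`, and translation by a point `(x₀, y₀)`. -/

set_option autoImplicit false

namespace Pool.Agent.L0h52.VE

section alg
variable {F : Type} [Field F]

/-- duplication -/
def stp (a b : F) (p : F × F) : F × F :=
  (4 * p.2 ^ 2 / (1 - b * p.1 ^ 2) ^ 2,
    2 * p.2 * (1 + 2 * a * p.1 + 6 * b * p.1 ^ 2 + 2 * a * b * p.1 ^ 3 + b ^ 2 * p.1 ^ 4) /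
      (1 - b * p.1 ^ 2) ^ 3)

def OnC (a b : F) (p : F × F) : Prop := p.2 ^ 2 = p.1 * (1 + a * p.1 + b * p.1 ^ 2)

theorem onC_stp {a b : F} {p : F × F} (h : OnC a b p) (hD : 1 - b * p.1 ^ 2 ≠ 0) :
    OnC a b (stp a b p) := by
  obtain ⟨u, w⟩ := p
  unfold OnC at h ⊢
  unfold stp
  simp only at h hD ⊢
  have key : (1 - b * u ^ 2) ^ 4 + 4 * a * (u * (1 + a * u + b * u ^ 2)) * (1 - b * u ^ 2) ^ 2 +
      16 * b * (u * (1 + a * u + b * u ^ 2)) ^ 2 =
      (1 + 2 * a * u + 6 * b * u ^ 2 + 2 * a * b * u ^ 3 + b ^ 2 * u ^ 4) ^ 2 := by ring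
  rw [← h] at key
  set D : F := 1 - b * u ^ 2 with hDd
  set P : F := 1 + 2 * a * u + 6 * b * u ^ 2 + 2 * a * b * u ^ 3 + b ^ 2 * u ^ 4 with hP
  clear_value D P
  field_simp
  linear_combination (-4 * w ^ 2 : F) * key

/-- the `x`-coordinate of the sum of `(1 / u, w / u²)` and `(x₀, y₀)` -/
def trX (a b x₀ y₀ : F) (p : F × F) : F :=
  x₀ + ((b + 2 * a * x₀ + 3 * x₀ ^ 2) * p.1 - 2 * y₀ * p.2 +
    (y₀ ^ 2 - a * x₀ ^ 2 - 2 * x₀ ^ 3) * p.1 ^ 2) / (1 - x₀ * p.1) ^ 2

theorem trX_sq {a b x₀ y₀ : F} {p : F × F} (h : OnC a b p) (hu : p.1 ≠ 0)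
    (h0 : y₀ ^ 2 = x₀ ^ 3 + a * x₀ ^ 2 + b * x₀) (hd : 1 - x₀ * p.1 ≠ 0) :
    ∃ y : F, y ^ 2 = trX a b x₀ y₀ p ^ 3 + a * trX a b x₀ y₀ p ^ 2 + b * trX a b x₀ y₀ p := by
  obtain ⟨u, w⟩ := p
  unfold OnC at h
  simp only at h hu hd
  set x₁ : F := 1 / u with hx₁
  set y₁ : F := w / u ^ 2 with hy₁
  have h1 : y₁ ^ 2 = x₁ ^ 3 + a * x₁ ^ 2 + b * x₁ := by
    rw [hx₁, hy₁, div_pow, h]
    field_simp
  have hne : x₁ - x₀ ≠ 0 := by
    intro h2
    apply hd
    have : x₀ = 1 / u := by rw [← hx₁]; linear_combination -h2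
    rw [this]
    field_simp
    exact sub_self _
  set l : F := (y₁ - y₀) / (x₁ - x₀) with hl
  have hl' : l * (x₁ - x₀) = y₁ - y₀ := by rw [hl]; field_simp
  set X : F := l ^ 2 - a - x₀ - x₁ with hX
  have hXe : trX a b x₀ y₀ (u, w) = X := by
    have e1 : (X - x₀) * (x₁ - x₀) ^ 2 = (b + 2 * a * x₀ + 3 * x₀ ^ 2) * x₁ - 2 * y₀ * y₁ +
        (y₀ ^ 2 - a * x₀ ^ 2 - 2 * x₀ ^ 3) := by
      rw [hX]
      linear_combination (l * (x₁ - x₀) + (y₁ - y₀)) * hl' + h1
    have e2 : x₁ - x₀ = (1 - x₀ * u) / u := by rw [hx₁]; field_simp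
    unfold trX
    simp only
    have e3 : X = x₀ + ((b + 2 * a * x₀ + 3 * x₀ ^ 2) * x₁ - 2 * y₀ * y₁ +
        (y₀ ^ 2 - a * x₀ ^ 2 - 2 * x₀ ^ 3)) / (x₁ - x₀) ^ 2 := by
      rw [← e1]
      field_simp
      ring
    rw [e3, e2, hx₁, hy₁]
    field_simp
  rw [hXe]
  refine ⟨y₀ + l * (X - x₀), ?_⟩
  -- the line meets the curve in `x₀`, `x₁`, `X`
  set α : F := b - 2 * l * y₀ + 2 * l ^ 2 * x₀ - (x₀ * x₁ + (x₀ + x₁) * X) with hα
  set β : F := -(y₀ - l * x₀) ^ 2 + x₀ * x₁ * X with hβ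
  have g0 : α * x₀ + β = 0 := by
    rw [hα, hβ, hX]
    linear_combination -h0
  have g1 : α * x₁ + β = 0 := by
    rw [hα, hβ, hX]
    linear_combination -h1 - (y₀ + l * (x₁ - x₀) + y₁) * hl'
  have gα : α = 0 := by
    have : α * (x₁ - x₀) = 0 := by linear_combination g1 - g0
    rcases mul_eq_zero.1 this with h | h
    · exact h
    · exact absurd h hne
  have gβ : β = 0 := by rw [gα] at g0; linear_combination g0
  have : X ^ 3 + a * X ^ 2 + b * X - (y₀ + l * (X - x₀)) ^ 2 = α * X + β := by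
    rw [hα, hβ, hX]
    ring
  rw [gα, gβ] at this
  linear_combination -this

end alg

section place

open NumberField

variable {K : Type} [Field K] [NumberField K]

theorem pl_natCast_le (v : FinitePlace K) (n : ℕ) : v (n : K) ≤ 1 :=
  place_le_one v (isIntegral_algebraMap (R := ℤ) (A := K) (x := (n : ℤ)) |> fun h => by simpa using h)

theorem pl_sub_le (v : FinitePlace K) (x y : K) : v (x - y) ≤ max (v x) (v y) := by
  have h := FinitePlace.add_le v x (-y)
  rwa [← sub_eq_add_neg, map_neg_eq_map] at h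

theorem pl_odd (v : FinitePlace K) (h2 : v (2 : K) < 1) {m : ℕ} (hm : Odd m) : v (m : K) = 1 := by
  apply le_antisymm (pl_natCast_le v m)
  obtain ⟨k, hk⟩ := hm
  have e : (1 : K) = (m : K) - 2 * (k : K) := by rw [hk]; push_cast; ring
  have h3 := pl_sub_le v (m : K) (2 * (k : K))
  rw [← e, map_one, map_mul] at h3
  rcases le_max_iff.1 h3 with h | h
  · exact h
  · exfalso
    have := pl_natCast_le v k
    have h0 : 0 ≤ v (2 : K) := apply_nonneg v _
    nlinarith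

/-- at the places over `2` an element is bounded by a power of `2` -/
theorem exists_e (a : K) : ∃ e : ℕ, ∀ v : FinitePlace K, v (2 : K) < 1 → v a * v (2 : K) ^ e ≤ 1 := by
  obtain ⟨n, hn, b, hb, -⟩ := exists_nat_ne_zero_exists_integer_mul_eq_and_absNorm_span_eq_pow a
  obtain ⟨e, m, hm, rfl⟩ := Nat.exists_eq_two_pow_mul_odd hn
  refine ⟨e, fun v hv => ?_⟩
  have h1 : v ((((2 ^ e * m : ℕ) : K)) * a) ≤ 1 := by
    rw [hb]
    exact place_le_one v b.isIntegral_coe
  rw [map_mul] at h1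
  push_cast at h1
  rw [map_mul, map_pow, pl_odd v hv hm, mul_one] at h1
  linarith

/-- a common exponent for all larger ones -/
theorem e_mono {v : FinitePlace K} (hv : v (2 : K) < 1) {a : K} {e e' : ℕ} (h : e ≤ e')
    (he : v a * v (2 : K) ^ e ≤ 1) : v a * v (2 : K) ^ e' ≤ 1 := by
  refine le_trans ?_ he
  refine mul_le_mul_of_nonneg_left ?_ (apply_nonneg v a)
  exact pow_le_pow_of_le_one (apply_nonneg v _) hv.le h

/-- the smallness condition -/
structure Small (v : FinitePlace K) (a b : K) (u : K) : Prop where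
  pos : u ≠ 0
  ha : v (a * u) < 1
  hb : v (b * u ^ 2) < 1

theorem pl_eq_one (v : FinitePlace K) {x : K} (h : v x < 1) : v (1 + x) = 1 := by
  apply le_antisymm
  · refine (FinitePlace.add_le v 1 x).trans ?_
    rw [map_one]
    exact max_le le_rfl h.le
  · have h1 := pl_sub_le v (1 + x) x
    rw [add_sub_cancel_right, map_one] at h1
    rcases le_max_iff.1 h1 with h2 | h2
    · exact h2
    · linarith

theorem Small.D {v : FinitePlace K} {a b u : K} (h : Small v a b u) : v (1 - b * u ^ 2) = 1 := by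
  rw [sub_eq_add_neg]
  refine pl_eq_one v ?_
  rw [map_neg_eq_map]
  exact h.hb

theorem Small.D_ne {v : FinitePlace K} {a b u : K} (h : Small v a b u) : 1 - b * u ^ 2 ≠ 0 := by
  intro h0
  have := h.D
  rw [h0, map_zero] at this
  exact zero_ne_one this

theorem Small.w {v : FinitePlace K} {a b : K} {p : K × K} (h : Small v a b p.1)
    (hp : OnC a b p) : v p.2 ^ 2 = v p.1 := by
  have h1 : v (a * p.1 + b * p.1 ^ 2) < 1 :=
    (FinitePlace.add_le v _ _).trans_lt (max_lt h.ha h.hb)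
  have h2 := congrArg v hp
  rw [map_pow, map_mul, add_assoc, pl_eq_one v h1, mul_one] at h2
  exact h2

theorem Small.w_ne {v : FinitePlace K} {a b : K} {p : K × K} (h : Small v a b p.1)
    (hp : OnC a b p) : p.2 ≠ 0 := by
  intro h0
  have h1 := h.w hp
  rw [h0, map_zero, zero_pow two_ne_zero] at h1
  exact h.pos ((map_eq_zero v).1 h1.symm)

theorem Small.stp {v : FinitePlace K} {a b : K} {p : K × K} (h : Small v a b p.1)
    (hp : OnC a b p) : v (stp a b p).1 = v (2 : K) ^ 2 * v p.1 ∧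
      v (stp a b p).2 = v (2 : K) * v p.2 ∧ Small v a b (stp a b p).1 ∧ OnC a b (stp a b p) := by
  have h1 : v (VE.stp a b p).1 = v (2 : K) ^ 2 * v p.1 := by
    unfold VE.stp
    simp only
    rw [map_div₀, map_mul, map_pow, map_pow, h.D, h.w hp, one_pow, div_one]
    rw [show (4 : K) = 2 ^ 2 by norm_num, map_pow]
  have hon : OnC a b (VE.stp a b p) := onC_stp hp h.D_ne
  have h2le : v (2 : K) ≤ 1 := by
    have := pl_natCast_le v 2
    exact_mod_cast this
  have h20 : 0 < v (2 : K) := FinitePlace.pos_iff.2 two_ne_zero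
  have hle : v (VE.stp a b p).1 ≤ v p.1 := by
    rw [h1]
    have : v (2 : K) ^ 2 ≤ 1 := pow_le_one₀ h20.le h2le
    have h0 : 0 ≤ v p.1 := apply_nonneg v _
    nlinarith
  have hne : (VE.stp a b p).1 ≠ 0 := by
    have : 0 < v (VE.stp a b p).1 := by
      rw [h1]
      have : 0 < v p.1 := FinitePlace.pos_iff.2 h.pos
      positivity
    exact FinitePlace.pos_iff.1 this
  have hs : Small v a b (VE.stp a b p).1 := by
    refine ⟨hne, ?_, ?_⟩
    · refine lt_of_le_of_lt ?_ h.ha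
      rw [map_mul, map_mul]
      exact mul_le_mul_of_nonneg_left hle (apply_nonneg v _)
    · refine lt_of_le_of_lt ?_ h.hb
      rw [map_mul, map_mul, map_pow, map_pow]
      exact mul_le_mul_of_nonneg_left (pow_le_pow_left₀ (apply_nonneg v _) hle 2)
        (apply_nonneg v _)
  refine ⟨h1, ?_, hs, hon⟩
  have h3 := hs.w hon
  rw [h1, ← h.w hp, ← mul_pow] at h3
  exact (pow_left_inj₀ (apply_nonneg v _) (mul_nonneg h20.le (apply_nonneg v _)) two_ne_zero).1 h3

end place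

end Pool.Agent.L0h52.VE
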