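import Pool.Agent.L0h52.VE.Fin

/-! Points with small discriminants on `y² = f(x)`, all degrees. -/

set_option autoImplicit false

namespace Pool.Agent.L0h52.VE

open NumberField Module Height Polynomial
open Pool.Agent.Y733.VR

theorem Good.map {K L : Type} [Field K] [NumberField K] [Field L] [NumberField L] [Algebra K L]
    {f : K[X]} {r : ℕ} {A : ℝ} {j : ℕ} {x : K} (h : Good f r A j x) :
    Good (f.map (algebraMap K L)) r A j (algebraMap K L x) := by
  obtain ⟨δ, s, h1, h2, h3, h4, h5, h6⟩ := h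
  have inj := (algebraMap K L).injective
  refine ⟨algebraMap K L δ, algebraMap K L s, (map_ne_zero_iff _ inj).2 h1,
    (map_ne_zero_iff _ inj).2 h2, isIntegral_map _ h3, ?_, ?_, ?_⟩
  · rw [eval_map_algebraMap, aeval_algebraMap_apply, ← map_pow, ← map_mul, ← h4]
    rfl
  · rw [ln_ext, hh_ext]
    exact h5
  · rw [hh_ext]
    exact h6

theorem Good.inv {M : Type} [Field M] [NumberField M] {f g : M[X]} {r : ℕ} {A : ℝ} {j : ℕ}
    {ρ z : M} (hz : z ≠ 0) (h : Good g r A j z)
    (he : g.eval z = f.eval (ρ + z⁻¹) * (z ^ (r + 2)) ^ 2) :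
    Good f r (A + (2 * r + 1) * (hh ρ + Real.log 2)) j (ρ + z⁻¹) := by
  obtain ⟨δ, s, h1, h2, h3, h4, h5, h6⟩ := h
  have hzp : z ^ (r + 2) ≠ 0 := pow_ne_zero _ hz
  have l2 : 0 ≤ Real.log 2 := Real.log_nonneg (by norm_num)
  have n0 : 0 ≤ hh ρ := hh_nonneg ρ
  refine ⟨δ, s / z ^ (r + 2), div_ne_zero h1 hzp, h2, h3, ?_, ?_, ?_⟩
  · rw [h4] at he
    rw [div_pow, ← mul_div_assoc, he]
    field_simp
  · have e1 : hh z ≤ hh (ρ + z⁻¹) + hh ρ + Real.log 2 := by
      have := hh_sub_le (ρ + z⁻¹) ρ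
      rwa [add_sub_cancel_left, hh_inv] at this
    have hr : (0 : ℝ) ≤ 2 * r := by positivity
    have e2 := mul_le_mul_of_nonneg_left e1 hr
    nlinarith
  · have e1 := hh_add_le ρ z⁻¹
    rw [hh_inv] at e1
    have h4j : (1 : ℝ) ≤ 4 ^ j := one_le_pow₀ (by norm_num)
    have hr : (0 : ℝ) ≤ 2 * r := by positivity
    have e2 : 0 ≤ 2 * r * (hh ρ + Real.log 2) := by positivity
    have e3 : 0 ≤ 2 * r * (hh ρ + Real.log 2) * 4 ^ j := by positivity
    have e4 : (hh ρ + Real.log 2) ≤ (hh ρ + Real.log 2) * 4 ^ j :=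
      le_mul_of_one_le_right (by positivity) h4j
    calc hh (ρ + z⁻¹) ≤ (hh ρ + Real.log 2) + hh z := by linarith
      _ ≤ (hh ρ + Real.log 2) * 4 ^ j + A * 4 ^ j := add_le_add e4 h6
      _ ≤ (A + (2 * r + 1) * (hh ρ + Real.log 2)) * 4 ^ j := by linarith

/-- even degree -/
theorem even_pol {L : Type} [Field L] [NumberField L] {c : L} (hc : c ≠ 0) (T : Finset L) {r : ℕ}
    (hT : T.card = 2 * r + 4) (hr : 1 ≤ r) :
    ∃ (M : Type) (_ : Field M) (_ : NumberField M) (_ : Algebra L M) (x : ℕ → M) (A : ℝ),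
      Function.Injective x ∧ ∀ j, Good ((pol c T).map (algebraMap L M)) r A j (x j) := by
  classical
  obtain ⟨ρ, hρ⟩ : ∃ e, e ∈ T := Finset.card_pos.1 (by omega)
  set T₁ := T.erase ρ with hT₁
  have c1 : T₁.card = 2 * r + 3 := by rw [hT₁, Finset.card_erase_of_mem hρ]; omega
  have hne : ∀ e ∈ T₁, ρ - e ≠ 0 := fun e he => sub_ne_zero.2 (Finset.ne_of_mem_erase he).symm
  set φ : L → L := fun e => -(ρ - e)⁻¹ with hφ
  have hφi : Function.Injective φ := by
    intro x y hxy
    have h1 := inv_injective (neg_injective hxy)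
    linear_combination -h1
  obtain ⟨M, iF, iN, iA, z, A, hz1, hz2⟩ := odd_pol (c := c * ∏ e ∈ T₁, (ρ - e))
    (mul_ne_zero hc (Finset.prod_ne_zero_iff.2 hne)) (T₁.image φ) (r := r)
    (by rw [Finset.card_image_of_injective _ hφi, c1]) hr
  have inj := (algebraMap L M).injective
  set ρ' := algebraMap L M ρ with hρ'
  have key : ∀ w : M, w ≠ 0 →
      ((pol (c * ∏ e ∈ T₁, (ρ - e)) (T₁.image φ)).map (algebraMap L M)).eval w =
      ((pol c T).map (algebraMap L M)).eval (ρ' + w⁻¹) * (w ^ (r + 2)) ^ 2 := by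
    intro w hw
    have e1 : ((pol (c * ∏ e ∈ T₁, (ρ - e)) (T₁.image φ)).map (algebraMap L M)).eval w =
        algebraMap L M c * ∏ e ∈ T₁, (1 + (ρ' - algebraMap L M e) * w) := by
      unfold pol
      rw [Finset.prod_image fun x _ y _ h => hφi h]
      simp only [Polynomial.map_mul, Polynomial.map_prod, Polynomial.map_sub, map_X, map_C,
        eval_mul, eval_prod, eval_sub, eval_X, eval_C, map_mul, map_prod, map_sub]
      rw [mul_assoc, ← Finset.prod_mul_distrib]
      congr 1
      refine Finset.prod_congr rfl fun e he => ?_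
      have h3 : ρ' - algebraMap L M e ≠ 0 := by
        rw [hρ', ← map_sub]
        exact (map_ne_zero_iff _ inj).2 (hne e he)
      rw [hφ]
      simp only [map_neg, map_inv₀, map_sub]
      rw [← hρ']
      field_simp
      ring
    have e2 : ((pol c T).map (algebraMap L M)).eval (ρ' + w⁻¹) =
        algebraMap L M c * (w⁻¹ * ∏ e ∈ T₁, ((1 + (ρ' - algebraMap L M e) * w) * w⁻¹)) := by
      unfold pol
      rw [← Finset.mul_prod_erase T _ hρ, ← hT₁]
      simp only [Polynomial.map_mul, Polynomial.map_prod, Polynomial.map_sub, map_X, map_C,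
        eval_mul, eval_prod, eval_sub, eval_X, eval_C]
      rw [← hρ', add_sub_cancel_left]
      congr 2
      refine Finset.prod_congr rfl fun e he => ?_
      field_simp
      ring
    rw [e1, e2, Finset.prod_mul_distrib, Finset.prod_const, c1]
    have e3 : (w ^ (r + 2)) ^ 2 = w * w ^ (2 * r + 3) := by
      rw [← pow_mul, ← pow_succ']
      congr 1
      ring
    rw [e3]
    have h5 : w⁻¹ ^ (2 * r + 3) * w ^ (2 * r + 3) = 1 := by
      rw [← mul_pow, inv_mul_cancel₀ hw, one_pow]
    have h6 : w⁻¹ * w = 1 := inv_mul_cancel₀ hw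
    set P := ∏ e ∈ T₁, (1 + (ρ' - algebraMap L M e) * w)
    linear_combination (-(algebraMap L M c * P)) * h5 -
      algebraMap L M c * P * (w⁻¹ ^ (2 * r + 3) * w ^ (2 * r + 3)) * h6
  -- at most one index with `z = 0`
  obtain ⟨j₁, hj₁⟩ : ∃ j₁, ∀ j ≥ j₁, z j ≠ 0 := by
    by_cases h : ∃ i, z i = 0
    · obtain ⟨i, hi⟩ := h
      refine ⟨i + 1, fun j hj h0 => ?_⟩
      have := hz1 (hi.trans h0.symm)
      omega
    · push Not at h
      exact ⟨0, fun j _ => h j⟩
  have l2 : 0 ≤ Real.log 2 := Real.log_nonneg (by norm_num)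
  set B := A + (2 * r + 1) * (hh ρ' + Real.log 2) with hB
  refine ⟨M, iF, iN, iA, fun j => ρ' + (z (j + j₁))⁻¹, |B| * 4 ^ j₁, ?_, ?_⟩
  · intro i j hij
    have := hz1 (inv_injective (add_left_cancel hij))
    omega
  · intro j
    have hz := hj₁ (j + j₁) (by omega)
    obtain ⟨δ, s, k1, k2, k3, k4, k5, k6⟩ := (hz2 (j + j₁)).inv hz (key _ hz)
    have h41 : (1 : ℝ) ≤ 4 ^ j₁ := one_le_pow₀ (by norm_num)
    have hBB : B ≤ |B| * 4 ^ j₁ :=
      (le_abs_self B).trans (le_mul_of_one_le_right (abs_nonneg B) h41)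
    refine ⟨δ, s, k1, k2, k3, k4, ?_, ?_⟩
    · have h1 : (j : ℝ) ≤ (j + j₁ : ℕ) := by push_cast; linarith [(Nat.cast_nonneg j₁ : (0 : ℝ) ≤ j₁)]
      have h2 := mul_le_mul_of_nonneg_right h1 l2
      linarith
    · refine k6.trans ?_
      have h1 : (4 : ℝ) ^ (j + j₁) = 4 ^ j₁ * 4 ^ j := by rw [← pow_add]; congr 1; omega
      rw [h1, ← mul_assoc]
      exact mul_le_mul_of_nonneg_right
        (mul_le_mul_of_nonneg_right (le_abs_self B) (by positivity)) (by positivity)

/-- **points with small discriminants on every hyperelliptic curve** -/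
theorem exists_good {K : Type} [Field K] [NumberField K] (f : K[X]) (hf : f.Separable)
    (hd : 5 ≤ f.natDegree) :
    ∃ (M : Type) (_ : Field M) (_ : NumberField M) (_ : Algebra K M) (x : ℕ → M) (A : ℝ),
      Function.Injective x ∧
        ∀ j, Good (f.map (algebraMap K M)) ((f.natDegree - 3) / 2) A j (x j) := by
  classical
  have hf0 : f ≠ 0 := hf.ne_zero
  have hfd : FiniteDimensional K f.SplittingField := inferInstance
  have hNF : NumberField f.SplittingField := NumberField.of_module_finite K f.SplittingField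
  set L := f.SplittingField with hL
  have hspl : (f.map (algebraMap K L)).Splits := SplittingField.splits f
  set c := algebraMap K L f.leadingCoeff with hc
  have hc0 : c ≠ 0 := (map_ne_zero_iff _ (algebraMap K L).injective).2 (leadingCoeff_ne_zero.2 hf0)
  have hnd : (f.map (algebraMap K L)).roots.Nodup := nodup_roots hf.map
  set T := (f.map (algebraMap K L)).roots.toFinset with hT
  have hcard : T.card = f.natDegree := by
    rw [hT, Multiset.toFinset_card_of_nodup hnd, ← hspl.natDegree_eq_card_roots, natDegree_map]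
  have hpol : f.map (algebraMap K L) = pol c T := by
    have h1 := hspl.eq_prod_roots
    rw [leadingCoeff_map, ← hc] at h1
    rw [h1]
    unfold pol
    congr 1
    rw [Finset.prod, hT, Multiset.toFinset_val, hnd.dedup]
  have main : ∃ (M : Type) (_ : Field M) (_ : NumberField M) (_ : Algebra L M) (x : ℕ → M) (A : ℝ),
      Function.Injective x ∧
        ∀ j, Good ((pol c T).map (algebraMap L M)) ((f.natDegree - 3) / 2) A j (x j) := by
    rcases Nat.even_or_odd f.natDegree with he | ho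
    · obtain ⟨k, hk⟩ := he
      exact even_pol hc0 T (r := (f.natDegree - 3) / 2) (by rw [hcard]; omega) (by omega)
    · obtain ⟨k, hk⟩ := ho
      exact odd_pol hc0 T (r := (f.natDegree - 3) / 2) (by rw [hcard]; omega) (by omega)
  obtain ⟨M, iF, iN, iA, x, A, h1, h2⟩ := main
  let _ : Algebra K M := ((algebraMap L M).comp (algebraMap K L)).toAlgebra
  refine ⟨M, iF, iN, inferInstance, x, A, h1, fun j => ?_⟩
  have h3 := h2 j
  rw [← hpol, Polynomial.map_map] at h3
  exact h3

end Pool.Agent.L0h52.VE
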