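import Pool.Agent.L0h52.VE.Core

/-! Points with small discriminants on `y² = f(x)`, `f` of odd degree. -/

set_option autoImplicit false

namespace Pool.Agent.L0h52.VE

open NumberField Module Height Polynomial
open Pool.Agent.Y733.VR

variable {K : Type} [Field K] [NumberField K]

/-- the data of a point with a small discriminant -/
def Good (f : K[X]) (r : ℕ) (C : ℝ) (j : ℕ) (x : K) : Prop :=
  ∃ δ s : K, s ≠ 0 ∧ δ ≠ 0 ∧ IsIntegral ℤ δ ∧ f.eval x = δ * s ^ 2 ∧
    ln δ + j * Real.log 2 ≤ 2 * r * hh x + C ∧ hh x ≤ C * 4 ^ j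

theorem poly_e (q : K[X]) (e : ℕ) : ∃ E : ℕ, ∀ v : FinitePlace K, v (2 : K) < 1 → ∀ x : K,
    v x * v (2 : K) ^ e ≤ 1 → v (q.eval x) * v (2 : K) ^ E ≤ 1 := by
  induction q using Polynomial.induction_on' with
  | add p q hp hq =>
    obtain ⟨E₁, h₁⟩ := hp
    obtain ⟨E₂, h₂⟩ := hq
    refine ⟨E₁ + E₂, fun v hv x hx => ?_⟩
    have te : 0 ≤ v (2 : K) ^ (E₁ + E₂) := by positivity
    rw [eval_add]
    refine (mul_le_mul_of_nonneg_right (FinitePlace.add_le v _ _) te).trans ?_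
    rw [max_mul_of_nonneg _ _ te]
    exact max_le (e_mono hv (by omega) (h₁ v hv x hx)) (e_mono hv (by omega) (h₂ v hv x hx))
  | monomial n c =>
    obtain ⟨E, h⟩ := exists_e c
    refine ⟨E + e * n, fun v hv x hx => ?_⟩
    rw [eval_monomial, map_mul, map_pow, pow_add, pow_mul]
    have h1 := h v hv
    have h2 : (v x * v (2 : K) ^ e) ^ n ≤ 1 := pow_le_one₀
      (mul_nonneg (apply_nonneg v _) (pow_nonneg (apply_nonneg v _) _)) hx
    calc v c * v x ^ n * (v (2 : K) ^ E * (v (2 : K) ^ e) ^ n)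
        = (v c * v (2 : K) ^ E) * (v x * v (2 : K) ^ e) ^ n := by ring
      _ ≤ 1 * 1 := mul_le_mul h1 h2 (pow_nonneg
        (mul_nonneg (apply_nonneg v _) (pow_nonneg (apply_nonneg v _) _)) _) zero_le_one
      _ = 1 := one_mul 1

/-- the square class of a value of `q` which is small at the places over `2` -/
theorem sqclass (q : K[X]) (r : ℕ) (hq : q.natDegree ≤ 2 * r) (E : ℕ) : ∃ C : ℝ,
    ∀ (j : ℕ) (x : K), q.eval x ≠ 0 →
      (∀ v : FinitePlace K, v (2 : K) < 1 → v (q.eval x) * v (2 : K) ^ E ≤ v (2 : K) ^ j) →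
      ∃ δ s : K, s ≠ 0 ∧ δ ≠ 0 ∧ IsIntegral ℤ δ ∧ q.eval x = δ * s ^ 2 ∧
        ln δ + j * Real.log 2 ≤ 2 * r * hh x + C := by
  obtain ⟨N, hN, C₁, hC₁, h₁⟩ := poly_val q (2 * r) hq
  obtain ⟨C₂, hC₂, h₂⟩ := exists_rep K
  refine ⟨(Real.log C₁ + (2 * r) * Real.log C₂) / finrank ℚ K + (E + 1) * Real.log 2,
    fun j x hx hv => ?_⟩
  obtain ⟨X, Z, hZ, hXZ, hprod⟩ := h₂ x
  obtain ⟨δ₀, hδ₀, hnorm⟩ := h₁ x X Z hXZ
  have hd : (0 : ℝ) < finrank ℚ K := deg_pos
  have hZK : (Z : K) ≠ 0 := by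
    intro h
    apply hZ
    exact RingOfIntegers.ext h
  have hNK : (N : K) ≠ 0 := Nat.cast_ne_zero.2 hN
  have hδ0 : (δ₀ : K) ≠ 0 := by
    rw [hδ₀]
    exact mul_ne_zero (mul_ne_zero (pow_ne_zero _ hNK) (pow_ne_zero _ hZK)) hx
  set m : ℕ := (j - E) / 2 with hm
  have h2K : (2 : K) ≠ 0 := two_ne_zero
  refine ⟨(δ₀ : K) / 2 ^ (2 * m), 2 ^ m / ((N : K) * (Z : K) ^ r), ?_, ?_, ?_, ?_, ?_⟩
  · exact div_ne_zero (pow_ne_zero _ h2K) (mul_ne_zero hNK (pow_ne_zero _ hZK))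
  · exact div_ne_zero hδ0 (pow_ne_zero _ h2K)
  · refine isIntegral_of_places _ fun v => ?_
    have t0 : 0 < v (2 : K) := two_pos_place v
    rw [map_div₀, map_pow, div_le_one (by positivity)]
    have hle1 : v (δ₀ : K) ≤ 1 := place_le_one v δ₀.isIntegral_coe
    by_cases hv2 : v (2 : K) < 1
    · by_cases hj : E ≤ j
      · have h3 := hv v hv2
        have h4 : v (δ₀ : K) ≤ v (q.eval x) := by
          rw [hδ₀, map_mul, map_mul, map_pow, map_pow]
          have a1 : v (N : K) ^ 2 ≤ 1 := pow_le_one₀ (apply_nonneg v _) (pl_natCast_le v N)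
          have a2 : v (Z : K) ^ (2 * r) ≤ 1 := pow_le_one₀ (apply_nonneg v _)
            (place_le_one v Z.isIntegral_coe)
          have a3 : v (N : K) ^ 2 * v (Z : K) ^ (2 * r) ≤ 1 :=
            mul_le_one₀ a1 (pow_nonneg (apply_nonneg v _) _) a2
          exact mul_le_of_le_one_left (apply_nonneg v _) a3
        have h5 : v (2 : K) ^ j = v (2 : K) ^ (j - E) * v (2 : K) ^ E := by
          rw [← pow_add]; congr 1; omega
        rw [h5] at h3
        have h6 : v (q.eval x) ≤ v (2 : K) ^ (j - E) := le_of_mul_le_mul_right h3 (by positivity)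
        refine h4.trans (h6.trans ?_)
        exact pow_le_pow_of_le_one t0.le hv2.le (by omega)
      · have : m = 0 := by omega
        rw [this]
        simpa using hle1
    · have : v (2 : K) = 1 := le_antisymm (two_le_place v) (not_lt.1 hv2)
      rw [this, one_pow]
      exact hle1
  · rw [hδ₀]
    field_simp
    ring
  · -- the norm
    have e1 : ln (δ₀ : K) ≤ 2 * r * hh x + (Real.log C₁ + (2 * r) * Real.log C₂) / finrank ℚ K := by
      have hpos : 0 < |(Algebra.norm ℚ (δ₀ : K) : ℝ)| := abs_pos.2 (norm_ne _ hδ0)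
      have hH : (1 : ℝ) ≤ mulHeight₁ x := one_le_mulHeight₁ x
      have k1 : |(Algebra.norm ℚ (δ₀ : K) : ℝ)| ≤ C₁ * (C₂ * mulHeight₁ x) ^ (2 * r) := by
        refine hnorm.trans ?_
        refine mul_le_mul_of_nonneg_left ?_ hC₁.le
        refine pow_le_pow_left₀ ?_ hprod _
        exact Finset.prod_nonneg fun v _ => pow_nonneg (le_max_of_le_left (apply_nonneg v _)) _
      have k2 : Real.log |(Algebra.norm ℚ (δ₀ : K) : ℝ)| ≤
          Real.log C₁ + (2 * r) * (Real.log C₂ + logHeight₁ x) := by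
        refine (Real.log_le_log hpos k1).trans (le_of_eq ?_)
        have hp : 0 < C₂ * mulHeight₁ x := by positivity
        rw [Real.log_mul hC₁.ne' (pow_pos hp _).ne', Real.log_pow,
          Real.log_mul hC₂.ne' (by positivity), logHeight₁_eq_log_mulHeight₁]
        push_cast
        ring
      unfold ln hh
      rw [← mul_div_assoc, ← add_div]
      refine div_le_div_of_nonneg_right ?_ hd.le
      linarith
    have e2 : ln (δ₀ : K) = ln ((δ₀ : K) / 2 ^ (2 * m)) + (2 * m : ℕ) * Real.log 2 := by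
      have k1 : (δ₀ : K) = (δ₀ : K) / 2 ^ (2 * m) * ((2 ^ (2 * m) : ℕ) : K) := by
        push_cast
        field_simp
      nth_rewrite 1 [k1]
      rw [ln_mul _ _ (div_ne_zero hδ0 (pow_ne_zero _ h2K)) (by push_cast; exact pow_ne_zero _ h2K),
        ln_natCast _ (by positivity)]
      push_cast
      rw [Real.log_pow]
      push_cast
      ring
    have e3 : (j : ℝ) ≤ (2 * m : ℕ) + (E + 1) := by
      have : j ≤ 2 * m + (E + 1) := by omega
      exact_mod_cast this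
    have l2 : 0 ≤ Real.log 2 := Real.log_nonneg (by norm_num)
    have e4 := mul_le_mul_of_nonneg_right e3 l2
    linarith

theorem odd_case {f q : K[X]} {e₁ e₂ e₃ e₅ y₀ : K} {r : ℕ} {p : K × K}
    (hf : f = (X - C e₁) * (X - C e₂) * (X - C e₃) * q) (hq0 : q ≠ 0) (hq : q.natDegree ≤ 2 * r)
    (hroot : q.eval e₅ = 0) (h51 : e₅ ≠ e₁) (h52 : e₅ ≠ e₂) (h53 : e₅ ≠ e₃)
    (hy : y₀ ^ 2 = (e₅ - e₁) * (e₅ - e₂) * (e₅ - e₃))
    (hp : OnC ((e₁ - e₂) + (e₁ - e₃)) ((e₁ - e₂) * (e₁ - e₃)) p)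
    (hs : ∀ v : FinitePlace K, v (2 : K) < 1 →
      Start v ((e₁ - e₂) + (e₁ - e₃)) ((e₁ - e₂) * (e₁ - e₃)) (e₅ - e₁) p) :
    ∃ (x : ℕ → K) (A : ℝ), Function.Injective x ∧ ∀ j, Good f r A j (x j) := by
  set a := (e₁ - e₂) + (e₁ - e₃) with ha
  set b := (e₁ - e₂) * (e₁ - e₃) with hb
  set t₀ := e₅ - e₁ with ht₀
  have h0 : y₀ ^ 2 = t₀ ^ 3 + a * t₀ ^ 2 + b * t₀ := by
    rw [hy, ha, hb, ht₀]; ring
  have hy0 : y₀ ≠ 0 := by
    intro h
    rw [h, zero_pow two_ne_zero] at hy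
    exact mul_ne_zero (mul_ne_zero (sub_ne_zero.2 h51) (sub_ne_zero.2 h52)) (sub_ne_zero.2 h53)
      hy.symm
  obtain ⟨t, e, C₁, hinj, hsq, hcl, hht⟩ := exists_seq hp h0 hy0 hs
  obtain ⟨q₁, hq₁⟩ := dvd_iff_isRoot.2 (show IsRoot q e₅ from hroot)
  obtain ⟨e', he'⟩ := exists_e e₅
  obtain ⟨E, hE⟩ := poly_e q₁ (e + e')
  obtain ⟨C₂, hC₂⟩ := sqclass q r hq (e + E)
  -- only finitely many indices are bad
  have hf0 : f ≠ 0 := by
    rw [hf]
    exact mul_ne_zero (mul_ne_zero (mul_ne_zero (X_sub_C_ne_zero _) (X_sub_C_ne_zero _))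
      (X_sub_C_ne_zero _)) hq0
  have hfin : {j : ℕ | f.eval (e₁ + t j) = 0}.Finite := by
    have h1 : {z : K | f.eval z = 0}.Finite := by
      classical
      refine (f.roots.toFinset.finite_toSet).subset fun z hz => ?_
      simp only [Finset.mem_coe, Multiset.mem_toFinset]
      exact (mem_roots hf0).2 hz
    refine Set.Finite.preimage (f := fun j => e₁ + t j) ?_ h1
    intro i _ j _ hij
    exact hinj (add_left_cancel hij)
  obtain ⟨j₁, hj₁⟩ := hfin.bddAbove
  refine ⟨fun j => e₁ + t (j + (j₁ + 1)), max (C₂ + Real.log 2 * 0)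
    (hh e₁ + Real.log 2 + |C₁| * 4 ^ (j₁ + 1)), ?_, ?_⟩
  · intro i j hij
    have := hinj (add_left_cancel hij)
    omega
  · intro j
    set J := j + (j₁ + 1) with hJ
    have hne : f.eval (e₁ + t J) ≠ 0 := by
      intro h
      have := hj₁ h
      omega
    obtain ⟨y, hy'⟩ := hsq J
    have hfe : f.eval (e₁ + t J) = y ^ 2 * q.eval (e₁ + t J) := by
      rw [hf, hy']
      simp only [eval_mul, eval_sub, eval_X, eval_C]
      rw [ha, hb]
      ring
    have hqe : q.eval (e₁ + t J) ≠ 0 := by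
      intro h
      rw [hfe, h, mul_zero] at hne
      exact hne rfl
    have hye : y ≠ 0 := by
      intro h
      rw [hfe, h, zero_pow two_ne_zero, zero_mul] at hne
      exact hne rfl
    obtain ⟨δ, s, k1, k2, k3, k4, k5⟩ := hC₂ J (e₁ + t J) hqe (fun v hv => by
      have t0 : 0 < v (2 : K) := two_pos_place v
      have c1 := hcl J v hv
      have tJ : v (2 : K) ^ J ≤ 1 := pow_le_one₀ t0.le hv.le
      have c2 : v (e₁ + t J) * v (2 : K) ^ (e + e') ≤ 1 := by
        have d1 : e₁ + t J = (t J - t₀) + e₅ := by rw [ht₀]; ring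
        rw [d1]
        have te : 0 ≤ v (2 : K) ^ (e + e') := by positivity
        refine (mul_le_mul_of_nonneg_right (FinitePlace.add_le v _ _) te).trans ?_
        rw [max_mul_of_nonneg _ _ te]
        exact max_le (e_mono hv (by omega) (c1.trans tJ)) (e_mono hv (by omega) (he' v hv))
      have c3 := hE v hv _ c2
      have c4 : q.eval (e₁ + t J) = (t J - t₀) * q₁.eval (e₁ + t J) := by
        rw [hq₁]
        simp only [eval_mul, eval_sub, eval_X, eval_C]
        rw [ht₀]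
        ring
      rw [c4, map_mul, pow_add]
      calc v (t J - t₀) * v (q₁.eval (e₁ + t J)) * (v (2 : K) ^ e * v (2 : K) ^ E)
          = (v (t J - t₀) * v (2 : K) ^ e) * (v (q₁.eval (e₁ + t J)) * v (2 : K) ^ E) := by ring
        _ ≤ v (2 : K) ^ J * 1 := mul_le_mul c1 c3
          (mul_nonneg (apply_nonneg v _) (by positivity)) (by positivity)
        _ = _ := mul_one _)
    have l2 : 0 ≤ Real.log 2 := Real.log_nonneg (by norm_num)
    refine ⟨δ, y * s, mul_ne_zero hye k1, k2, k3, ?_, ?_, ?_⟩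
    · show f.eval (e₁ + t J) = _
      rw [hfe, k4]; ring
    · have h1 : (j : ℝ) ≤ J := by rw [hJ]; push_cast; linarith
      have h2 := mul_le_mul_of_nonneg_right h1 l2
      have h3 : C₂ ≤ max (C₂ + Real.log 2 * 0) (hh e₁ + Real.log 2 + |C₁| * 4 ^ (j₁ + 1)) := by
        refine le_trans ?_ (le_max_left _ _)
        linarith
      linarith
    · have h1 := hh_add_le e₁ (t J)
      have h2 := hht J
      have h3 : C₁ * 4 ^ J ≤ |C₁| * 4 ^ (j₁ + 1) * 4 ^ j := by
        have : (4 : ℝ) ^ J = 4 ^ (j₁ + 1) * 4 ^ j := by rw [hJ, ← pow_add]; congr 1; omega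
        rw [this, mul_assoc]
        exact mul_le_mul_of_nonneg_right (le_abs_self _) (by positivity)
      have h4 : (1 : ℝ) ≤ 4 ^ j := one_le_pow₀ (by norm_num)
      have h5 : (hh e₁ + Real.log 2 + |C₁| * 4 ^ (j₁ + 1)) * 4 ^ j ≤
          max (C₂ + Real.log 2 * 0) (hh e₁ + Real.log 2 + |C₁| * 4 ^ (j₁ + 1)) * 4 ^ j :=
        mul_le_mul_of_nonneg_right (le_max_right _ _) (by positivity)
      have h6 : 0 ≤ hh e₁ := hh_nonneg _
      show hh (e₁ + t J) ≤ _
      nlinarith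

end Pool.Agent.L0h52.VE
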