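import Pool.Agent.L0h52.VE.Rep

/-! Values of homogenised polynomials at integral coordinates. -/

set_option autoImplicit false

namespace Pool.Agent.L0h52.VE

open NumberField Module Height Polynomial

variable {K : Type} [Field K] [NumberField K]

/-- an element which is integral at all finite places is integral -/
theorem isIntegral_of_places (y : K) (h : ∀ v : FinitePlace K, v y ≤ 1) : IsIntegral ℤ y := by
  obtain ⟨a, ha⟩ := IsDedekindDomain.HeightOneSpectrum.mem_integers_of_valuation_le_one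
    (R := 𝓞 K) K y (fun w => by
      have h1 := h (FinitePlace.mk w)
      rw [FinitePlace.mk_apply, FinitePlace.norm_embedding'] at h1
      have h2 : (WithZeroMulInt.toNNReal (HeightOneSpectrum.absNorm_ne_zero w)
        (w.valuation K y) : NNReal) ≤ 1 := by exact_mod_cast h1
      exact (WithZeroMulInt.toNNReal_le_one_iff (HeightOneSpectrum.one_lt_absNorm_nnreal w)).1 h2)
  rw [← ha]
  exact a.isIntegral_coe

theorem place_le_one (v : FinitePlace K) {y : K} (hy : IsIntegral ℤ y) : v y ≤ 1 := by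
  have h1 := FinitePlace.norm_le_one (K := K) (v := v.maximalIdeal) (⟨y, hy⟩ : 𝓞 K)
  rw [← FinitePlace.norm_embedding_eq v y]
  exact h1

theorem exists_den (q : K[X]) (D : ℕ) : ∃ N : ℕ, N ≠ 0 ∧ ∀ i < D + 1,
    ∃ b : 𝓞 K, (b : K) = (N : K) * q.coeff i := by
  have h : ∀ i, ∃ n : ℕ, n ≠ 0 ∧ ∃ b : 𝓞 K, (n : K) * q.coeff i = b := fun i => by
    obtain ⟨n, h1, a, h2, -⟩ :=
      exists_nat_ne_zero_exists_integer_mul_eq_and_absNorm_span_eq_pow (q.coeff i)
    exact ⟨n, h1, a, h2⟩
  choose n hn b hb using h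
  refine ⟨∏ i ∈ Finset.range (D + 1), n i, Finset.prod_ne_zero_iff.2 fun i _ => hn i,
    fun i hi => ?_⟩
  have h1 := Finset.mul_prod_erase (Finset.range (D + 1)) n (Finset.mem_range.2 hi)
  refine ⟨((∏ j ∈ (Finset.range (D + 1)).erase i, n j : ℕ) : 𝓞 K) * b i, ?_⟩
  have h2 := hb i
  rw [← h1]
  rw [RingOfIntegers.coe_eq_algebraMap] at h2 ⊢
  rw [map_mul, ← h2, map_natCast]
  push_cast
  ring

/-- integral values -/
theorem poly_val (q : K[X]) (D : ℕ) (hq : q.natDegree ≤ D) : ∃ N : ℕ, N ≠ 0 ∧ ∃ C : ℝ, 0 < C ∧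
    ∀ (x : K) (X Z : 𝓞 K), x * (Z : K) = X →
      ∃ δ : 𝓞 K, (δ : K) = (N : K) ^ 2 * (Z : K) ^ D * q.eval x ∧
        |(Algebra.norm ℚ (δ : K) : ℝ)| ≤
          C * (∏ v : InfinitePlace K, (max (v (X : K)) (v (Z : K))) ^ v.mult) ^ D := by
  classical
  obtain ⟨N, hN, hb⟩ := exists_den q D
  choose! b hb using hb
  set B : InfinitePlace K → ℝ := fun v => (N : ℝ) * ∑ i ∈ Finset.range (D + 1), v (b i : K) with hB
  have hB0 : ∀ v, 0 ≤ B v := fun v => mul_nonneg (Nat.cast_nonneg _)
    (Finset.sum_nonneg fun i _ => apply_nonneg v _)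
  refine ⟨N, hN, (∏ v, B v ^ v.mult) + 1, ?_, fun x X Z h => ?_⟩
  · have : 0 ≤ ∏ v, B v ^ v.mult := Finset.prod_nonneg fun v _ => pow_nonneg (hB0 v) _
    linarith
  refine ⟨(N : 𝓞 K) * ∑ i ∈ Finset.range (D + 1), b i * X ^ i * Z ^ (D - i), ?_, ?_⟩
  · rw [eval_eq_sum_range' (Nat.lt_succ_of_le hq)]
    rw [RingOfIntegers.coe_eq_algebraMap, map_mul, map_sum, map_natCast]
    rw [Finset.mul_sum, Finset.mul_sum]
    refine Finset.sum_congr rfl fun i hi => ?_
    have hi' : i < D + 1 := Finset.mem_range.1 hi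
    rw [map_mul, map_mul, map_pow, map_pow, ← RingOfIntegers.coe_eq_algebraMap,
      ← RingOfIntegers.coe_eq_algebraMap, ← RingOfIntegers.coe_eq_algebraMap, hb i hi', ← h]
    have : (Z : K) ^ D = (Z : K) ^ i * (Z : K) ^ (D - i) := by
      rw [← pow_add]; congr 1; omega
    rw [this]
    ring
  · set δ : 𝓞 K := (N : 𝓞 K) * ∑ i ∈ Finset.range (D + 1), b i * X ^ i * Z ^ (D - i) with hδ
    have h1 : |(Algebra.norm ℚ (δ : K) : ℝ)| = ∏ v : InfinitePlace K, (v (δ : K)) ^ v.mult := by
      rw [InfinitePlace.prod_eq_abs_norm]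
      push_cast
      rfl
    have h2 : ∀ v : InfinitePlace K, v (δ : K) ≤ B v * (max (v (X : K)) (v (Z : K))) ^ D := by
      intro v
      have e1 : (δ : K) = (N : K) * ∑ i ∈ Finset.range (D + 1),
          (b i : K) * (X : K) ^ i * (Z : K) ^ (D - i) := by
        rw [hδ]
        simp only [RingOfIntegers.coe_eq_algebraMap, map_mul, map_sum, map_natCast, map_pow]
      have e2 : v (N : K) = N := by
        rw [← InfinitePlace.norm_embedding_eq v]
        simp
      rw [e1, map_mul, e2, hB, mul_assoc]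
      refine mul_le_mul_of_nonneg_left ?_ (Nat.cast_nonneg _)
      have e3 : v (∑ i ∈ Finset.range (D + 1), (b i : K) * (X : K) ^ i * (Z : K) ^ (D - i)) ≤
          ∑ i ∈ Finset.range (D + 1), v ((b i : K) * (X : K) ^ i * (Z : K) ^ (D - i)) := by
        exact AbsoluteValue.sum_le v.1 _ _
      refine e3.trans ?_
      rw [Finset.sum_mul]
      refine Finset.sum_le_sum fun i hi => ?_
      have hi' : i < D + 1 := Finset.mem_range.1 hi
      rw [map_mul, map_mul, map_pow, map_pow, mul_assoc]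
      refine mul_le_mul_of_nonneg_left ?_ (apply_nonneg v _)
      have e4 : (max (v (X : K)) (v (Z : K))) ^ D = (max (v (X : K)) (v (Z : K))) ^ i *
          (max (v (X : K)) (v (Z : K))) ^ (D - i) := by
        rw [← pow_add]; congr 1; omega
      rw [e4]
      gcongr
      · exact le_max_left _ _
      · exact le_max_right _ _
    have hM0 : ∀ v : InfinitePlace K, 0 ≤ max (v (X : K)) (v (Z : K)) := fun v =>
      le_max_of_le_left (apply_nonneg v _)
    rw [h1]
    have h3 : ∏ v : InfinitePlace K, (v (δ : K)) ^ v.mult ≤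
        (∏ v, B v ^ v.mult) * (∏ v : InfinitePlace K, (max (v (X : K)) (v (Z : K))) ^ v.mult) ^ D := by
      rw [← Finset.prod_pow, ← Finset.prod_mul_distrib]
      refine Finset.prod_le_prod (fun v _ => pow_nonneg (apply_nonneg v _) _) fun v _ => ?_
      rw [← pow_mul, mul_comm v.mult D, pow_mul, ← mul_pow]
      exact pow_le_pow_left₀ (apply_nonneg v _) (h2 v) _
    refine h3.trans ?_
    have h4 : 0 ≤ (∏ v : InfinitePlace K, (max (v (X : K)) (v (Z : K))) ^ v.mult) ^ D :=
      pow_nonneg (Finset.prod_nonneg fun v _ => pow_nonneg (hM0 v) _) _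
    nlinarith

end Pool.Agent.L0h52.VE
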