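import Mathlib
import Pool.Agent.Y733.VR.Ht

/-! Integral homogeneous coordinates with an ideal of bounded norm. -/

set_option autoImplicit false

namespace Pool.Agent.L0h52.VE

open NumberField Module Height Ideal
open scoped nonZeroDivisors

theorem iSup_two (f : Fin 2 → ℝ) : iSup f = max (f 0) (f 1) := by
  apply le_antisymm
  · refine ciSup_le fun i => ?_
    fin_cases i
    · exact le_max_left _ _
    · exact le_max_right _ _
  · exact max_le (le_ciSup (Set.finite_range f).bddAbove 0)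
      (le_ciSup (Set.finite_range f).bddAbove 1)

variable (K : Type) [Field K] [NumberField K]

theorem exists_rep : ∃ C : ℝ, 0 < C ∧ ∀ x : K, ∃ X Z : 𝓞 K, Z ≠ 0 ∧ x * (Z : K) = X ∧
    ∏ v : InfinitePlace K, (max (v (X : K)) (v (Z : K))) ^ v.mult ≤ C * mulHeight₁ x := by
  set M : ℝ := (4 / Real.pi) ^ InfinitePlace.nrComplexPlaces K *
        (finrank ℚ K).factorial / (finrank ℚ K) ^ (finrank ℚ K) * Real.sqrt |discr K| with hM
  have hM0 : 0 ≤ M := by positivity
  refine ⟨M + 1, by linarith, fun x => ?_⟩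
  obtain ⟨n, hn, a, ha, hI⟩ := exists_nat_ne_zero_exists_integer_mul_eq_and_absNorm_span_eq_pow x
  set I : Ideal (𝓞 K) := span (Set.range ![a, (n : 𝓞 K)]) with hIdef
  have hn0 : (n : 𝓞 K) ≠ 0 := Nat.cast_ne_zero.2 hn
  have hnK : (n : K) ≠ 0 := Nat.cast_ne_zero.2 hn
  have haI : a ∈ I := Ideal.subset_span ⟨0, rfl⟩
  have hnI : (n : 𝓞 K) ∈ I := Ideal.subset_span ⟨1, rfl⟩
  have hI0 : I ≠ ⊥ := by
    intro h
    rw [h, Ideal.mem_bot] at hnI
    exact hn0 hnI
  have hI0' : (I : FractionalIdeal (𝓞 K)⁰ K) ≠ 0 := FractionalIdeal.coeIdeal_ne_zero.2 hI0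
  obtain ⟨t, htI, ht0, htN⟩ := exists_ne_zero_mem_ideal_of_norm_le_mul_sqrt_discr K
    (Units.mk0 (I : FractionalIdeal (𝓞 K)⁰ K) hI0')⁻¹
  rw [Units.val_inv_eq_inv_val, Units.val_mk0] at htI htN
  have hNI : (0 : ℝ) < (absNorm I : ℝ) := by
    have : absNorm I ≠ 0 := by rwa [Ne, absNorm_eq_zero_iff]
    exact_mod_cast Nat.pos_of_ne_zero this
  have hinv : ((FractionalIdeal.absNorm ((I : FractionalIdeal (𝓞 K)⁰ K)⁻¹) : ℚ) : ℝ) =
      ((absNorm I : ℕ) : ℝ)⁻¹ := by
    rw [map_inv₀, FractionalIdeal.coeIdeal_absNorm]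
    push_cast
    rfl
  rw [FractionalIdeal.mem_inv_iff hI0'] at htI
  have hint : ∀ y ∈ I, ∃ Y : 𝓞 K, (Y : K) = t * (y : K) := by
    intro y hy
    have h1 := htI (y : K) (FractionalIdeal.mem_coeIdeal_of_mem _ hy)
    obtain ⟨Y, hY⟩ := (FractionalIdeal.mem_one_iff _).1 h1
    exact ⟨Y, hY⟩
  obtain ⟨X, hX⟩ := hint a haI
  obtain ⟨Z, hZ⟩ := hint n hnI
  have hZ' : (Z : K) = t * (n : K) := by rw [hZ]; norm_num
  refine ⟨X, Z, ?_, ?_, ?_⟩
  · intro h
    rw [h] at hZ'
    have : (0 : K) = t * (n : K) := by simpa using hZ'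
    exact mul_ne_zero ht0 hnK this.symm
  · rw [hX, hZ', ← ha]
    ring
  · -- the archimedean part
    have h1 : ∏ v : InfinitePlace K, (max (v (X : K)) (v (Z : K))) ^ v.mult =
        |(Algebra.norm ℚ t : ℝ)| * ∏ v : InfinitePlace K, (max (v (a : K)) (v (n : K))) ^ v.mult := by
      have h2 : |(Algebra.norm ℚ t : ℝ)| = ∏ v : InfinitePlace K, (v t) ^ v.mult := by
        have := InfinitePlace.prod_eq_abs_norm t
        rw [this]
        push_cast
        rfl
      rw [h2, ← Finset.prod_mul_distrib]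
      refine Finset.prod_congr rfl fun v _ => ?_
      rw [← mul_pow, hX, hZ', map_mul, map_mul, mul_max_of_nonneg _ _ (apply_nonneg v t)]
    have hx : x = (a : K) / (n : K) := by
      rw [← ha]
      field_simp
    have h3 : mulHeight₁ x * (absNorm I : ℝ) =
        ∏ v : InfinitePlace K, (max (v (a : K)) (v (n : K))) ^ v.mult := by
      have hne : (fun i => ((![a, (n : 𝓞 K)] i : 𝓞 K) : K)) ≠ 0 := by
        intro h
        have := congrFun h 1
        simp at this
        exact hn this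
      rw [hx, mulHeight₁_div_eq_mulHeight]
      have h4 : (![(a : K), (n : K)] : Fin 2 → K) = fun i => ((![a, (n : 𝓞 K)] i : 𝓞 K) : K) := by
        funext i
        fin_cases i <;> simp
      have h5 := NumberField.absNorm_mul_finprod_finitePlace_eq_one
        (x := ![a, (n : 𝓞 K)]) (K := K) (by
          intro h
          apply hne
          rw [h]
          funext i
          simp)
      rw [h4, NumberField.mulHeight_eq hne, mul_assoc, mul_comm (∏ᶠ v : FinitePlace K, _), h5, mul_one]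
      refine Finset.prod_congr rfl fun v _ => ?_
      congr 1
      rw [iSup_two]
      simp
    rw [h1, ← h3]
    have h6 : |(Algebra.norm ℚ t : ℝ)| ≤ (absNorm I : ℝ)⁻¹ * M := by
      have h7 : |(Algebra.norm ℚ t : ℝ)| = ((|Algebra.norm ℚ t| : ℚ) : ℝ) := by push_cast; rfl
      rw [h7]
      refine htN.trans (le_of_eq ?_)
      rw [hinv, hM]
      ring
    have h8 : 0 ≤ mulHeight₁ x := (zero_lt_one.trans_le (one_le_mulHeight₁ x)).le
    calc |(Algebra.norm ℚ t : ℝ)| * (mulHeight₁ x * (absNorm I : ℝ))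
        ≤ ((absNorm I : ℝ)⁻¹ * M) * (mulHeight₁ x * (absNorm I : ℝ)) := by gcongr
      _ = M * mulHeight₁ x := by field_simp
      _ ≤ (M + 1) * mulHeight₁ x := by nlinarith

end Pool.Agent.L0h52.VE
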