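import Pool.Agent.L0h52.VE.Dyn

/-! The sequence of the points `P₀ + 2^j Q`. -/

set_option autoImplicit false

namespace Pool.Agent.L0h52.VE

open NumberField Module Height
open Pool.Agent.Y733.VR

variable {K : Type} [Field K] [NumberField K]

/-- the iterates -/
def itr (a b : K) (p : K × K) (j : ℕ) : K × K := (stp a b)^[j] p

theorem itr_succ (a b : K) (p : K × K) (j : ℕ) : itr a b p (j + 1) = stp a b (itr a b p j) :=
  Function.iterate_succ_apply' _ _ _

theorem itr_props {v : FinitePlace K} {a b : K} {p : K × K} (h : Small v a b p.1)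
    (hp : OnC a b p) (j : ℕ) : v (itr a b p j).1 = v (2 : K) ^ (2 * j) * v p.1 ∧
      v (itr a b p j).2 = v (2 : K) ^ j * v p.2 ∧ Small v a b (itr a b p j).1 ∧
      OnC a b (itr a b p j) := by
  induction j with
  | zero => simp only [itr, Function.iterate_zero, id, mul_zero, pow_zero, one_mul, true_and]
            exact ⟨h, hp⟩
  | succ j ih =>
    obtain ⟨h1, h2, h3, h4⟩ := ih
    obtain ⟨g1, g2, g3, g4⟩ := h3.stp h4
    rw [itr_succ]
    refine ⟨?_, ?_, g3, g4⟩
    · rw [g1, h1]; ring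
    · rw [g2, h2]; ring

/-- the height of the double -/
theorem hh_stp (a b : K) : ∃ C : ℝ, 0 ≤ C ∧ ∀ p : K × K, OnC a b p → 1 - b * p.1 ^ 2 ≠ 0 →
    hh (stp a b p).1 ≤ 4 * hh p.1 + C := by
  set P : Fin 2 → MvPolynomial (Fin 2) K :=
    ![MvPolynomial.C 4 * (MvPolynomial.X 0 * (MvPolynomial.X 1 * (MvPolynomial.X 1 ^ 2 +
        MvPolynomial.C a * (MvPolynomial.X 0 * MvPolynomial.X 1) +
        MvPolynomial.C b * MvPolynomial.X 0 ^ 2))),
      (MvPolynomial.X 1 ^ 2 - MvPolynomial.C b * MvPolynomial.X 0 ^ 2) ^ 2] with hP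
  have hX : ∀ i : Fin 2, (MvPolynomial.X i : MvPolynomial (Fin 2) K).IsHomogeneous 1 :=
    fun i => MvPolynomial.isHomogeneous_X K i
  have hX2 : ∀ i : Fin 2, (MvPolynomial.X i ^ 2 : MvPolynomial (Fin 2) K).IsHomogeneous 2 :=
    fun i => (hX i).pow 2
  have hom : ∀ i, (P i).IsHomogeneous 4 := by
    intro i
    fin_cases i
    · show (MvPolynomial.C 4 * (MvPolynomial.X 0 * (MvPolynomial.X 1 * (MvPolynomial.X 1 ^ 2 +
        MvPolynomial.C a * (MvPolynomial.X 0 * MvPolynomial.X 1) +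
        MvPolynomial.C b * MvPolynomial.X 0 ^ 2))) : MvPolynomial (Fin 2) K).IsHomogeneous 4
      have e1 : (MvPolynomial.X 1 ^ 2 +
        MvPolynomial.C a * (MvPolynomial.X 0 * MvPolynomial.X 1) +
        MvPolynomial.C b * MvPolynomial.X 0 ^ 2 : MvPolynomial (Fin 2) K).IsHomogeneous 2 :=
        ((hX2 1).add (((hX 0).mul (hX 1)).C_mul a)).add ((hX2 0).C_mul b)
      exact ((hX 0).mul ((hX 1).mul e1)).C_mul 4
    · show ((MvPolynomial.X 1 ^ 2 - MvPolynomial.C b * MvPolynomial.X 0 ^ 2) ^ 2 :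
        MvPolynomial (Fin 2) K).IsHomogeneous 4
      exact ((hX2 1).sub ((hX2 0).C_mul b)).pow 2
  obtain ⟨C, hC⟩ := logHeight_eval_le' hom
  refine ⟨|C| / finrank ℚ K, by positivity, fun p hp hD => ?_⟩
  obtain ⟨u, w⟩ := p
  have h1 := hC ![u, 1]
  have h2 : (fun j => (P j).eval ![u, 1]) =
      ![4 * (u * (1 + a * u + b * u ^ 2)), (1 - b * u ^ 2) ^ 2] := by
    funext i
    fin_cases i
    · simp [hP]
    · simp [hP]
  rw [h2, ← logHeight₁_div_eq_logHeight, ← logHeight₁_eq_logHeight] at h1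
  have h3 : (stp a b (u, w)).1 = 4 * (u * (1 + a * u + b * u ^ 2)) / (1 - b * u ^ 2) ^ 2 := by
    unfold OnC at hp
    simp only at hp
    unfold stp
    simp only
    rw [hp]
  rw [h3]
  have hd : (0 : ℝ) < finrank ℚ K := deg_pos
  unfold hh
  rw [mul_div_assoc', ← add_div]
  refine div_le_div_of_nonneg_right ?_ hd.le
  have := le_abs_self C
  push_cast at h1
  linarith

theorem hh_pow_le {f : ℕ → ℝ} {C : ℝ} (hC : 0 ≤ C) (h : ∀ j, f (j + 1) ≤ 4 * f j + C) (j : ℕ) :
    f j ≤ (|f 0| + C) * 4 ^ j - C / 3 := by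
  induction j with
  | zero =>
    have := le_abs_self (f 0)
    simp only [pow_zero, mul_one]
    linarith
  | succ j ih =>
    have := h j
    rw [pow_succ]
    nlinarith

end Pool.Agent.L0h52.VE
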