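import Pool.Agent.L0h52.VE.Seq

/-! The translated sequence. -/

set_option autoImplicit false

namespace Pool.Agent.L0h52.VE

open NumberField Module Height
open Pool.Agent.Y733.VR

variable {K : Type} [Field K] [NumberField K]

theorem exists_place_two (K : Type) [Field K] [NumberField K] :
    ∃ v : FinitePlace K, v (2 : K) < 1 := by
  by_contra hcon
  push Not at hcon
  have h1 : IsIntegral ℤ ((2 : K)⁻¹) := isIntegral_of_places _ fun v => by
    rw [map_inv₀]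
    exact inv_le_one_of_one_le₀ (hcon v)
  have h2 : IsIntegral ℤ ((2 : ℚ)⁻¹) := by
    have : ((2 : K)⁻¹) = algebraMap ℚ K ((2 : ℚ)⁻¹) := by simp
    rw [this] at h1
    exact (isIntegral_algebraMap_iff (algebraMap ℚ K).injective).1 h1
  obtain ⟨z, hz⟩ := IsIntegrallyClosed.isIntegral_iff.1 h2
  have h3 : (2 * z : ℤ) = 1 := by
    have : (2 : ℚ) * (z : ℚ) = 1 := by
      have hz' : (z : ℚ) = (2 : ℚ)⁻¹ := by simpa using hz
      rw [hz']
      norm_num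
    exact_mod_cast this
  omega

theorem two_pos_place (v : FinitePlace K) : 0 < v (2 : K) := FinitePlace.pos_iff.2 two_ne_zero

theorem two_le_place (v : FinitePlace K) : v (2 : K) ≤ 1 := by
  have := pl_natCast_le v 2
  exact_mod_cast this

/-- the data at the places over `2` -/
structure Start (v : FinitePlace K) (a b x₀ : K) (p : K × K) : Prop where
  small : Small v a b p.1
  hx : v (x₀ * p.1) < 1
  hu : v p.1 ≤ 1
  hw : v p.2 ≤ 1

theorem Start.den {v : FinitePlace K} {a b x₀ : K} {p : K × K} (h : Start v a b x₀ p)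
    (hp : OnC a b p) (j : ℕ) : v (1 - x₀ * (itr a b p j).1) = 1 := by
  obtain ⟨h1, -, -, -⟩ := itr_props h.small hp j
  rw [sub_eq_add_neg]
  refine pl_eq_one v ?_
  rw [map_neg_eq_map, map_mul, h1]
  refine lt_of_le_of_lt ?_ h.hx
  rw [map_mul]
  refine mul_le_mul_of_nonneg_left ?_ (apply_nonneg v _)
  have : v (2 : K) ^ (2 * j) ≤ 1 := pow_le_one₀ (two_pos_place v).le (two_le_place v)
  have h0 : 0 ≤ v p.1 := apply_nonneg v _
  nlinarith

theorem Start.upper {v : FinitePlace K} (hv : v (2 : K) < 1) {a b x₀ y₀ : K} {p : K × K}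
    (h : Start v a b x₀ p)
    (hp : OnC a b p) {e : ℕ} (h1 : v (b + 2 * a * x₀ + 3 * x₀ ^ 2) * v (2 : K) ^ e ≤ 1)
    (h2 : v y₀ * v (2 : K) ^ e ≤ 1) (h3 : v (y₀ ^ 2 - a * x₀ ^ 2 - 2 * x₀ ^ 3) * v (2 : K) ^ e ≤ 1)
    (j : ℕ) : v (trX a b x₀ y₀ (itr a b p j) - x₀) * v (2 : K) ^ e ≤ v (2 : K) ^ j := by
  obtain ⟨g1, g2, -, -⟩ := itr_props h.small hp j
  have hd := h.den hp j
  set u := (itr a b p j).1 with hu
  set w := (itr a b p j).2 with hw
  have e1 : trX a b x₀ y₀ (itr a b p j) - x₀ = ((b + 2 * a * x₀ + 3 * x₀ ^ 2) * u - 2 * y₀ * w +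
    (y₀ ^ 2 - a * x₀ ^ 2 - 2 * x₀ ^ 3) * u ^ 2) / (1 - x₀ * u) ^ 2 := by
    unfold trX
    rw [add_sub_cancel_left]
  have t0 : 0 < v (2 : K) := two_pos_place v
  have t1 : v (2 : K) ≤ 1 := two_le_place v
  have tj : v (2 : K) ^ (2 * j) ≤ v (2 : K) ^ j := pow_le_pow_of_le_one t0.le t1 (by omega)
  have tj1 : v (2 : K) ^ j ≤ 1 := pow_le_one₀ t0.le t1
  have hule : v u ≤ v (2 : K) ^ j := by
    rw [g1]
    have := h.hu
    have h0 : 0 ≤ v p.1 := apply_nonneg v _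
    have h00 : 0 ≤ v (2 : K) ^ (2 * j) := by positivity
    nlinarith
  have hwle : v w ≤ v (2 : K) ^ j := by
    rw [g2]
    have := h.hw
    have h0 : 0 ≤ v p.2 := apply_nonneg v _
    have h00 : 0 ≤ v (2 : K) ^ j := by positivity
    nlinarith
  have hu2 : v (u ^ 2) ≤ v (2 : K) ^ j := by
    rw [map_pow]
    have h0 : 0 ≤ v u := apply_nonneg v _
    nlinarith
  rw [e1, map_div₀, map_pow, hd, one_pow, div_one]
  have te : 0 ≤ v (2 : K) ^ e := by positivity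
  have k1 : v ((b + 2 * a * x₀ + 3 * x₀ ^ 2) * u) * v (2 : K) ^ e ≤ v (2 : K) ^ j := by
    rw [map_mul]
    calc v (b + 2 * a * x₀ + 3 * x₀ ^ 2) * v u * v (2 : K) ^ e
        = (v (b + 2 * a * x₀ + 3 * x₀ ^ 2) * v (2 : K) ^ e) * v u := by ring
      _ ≤ 1 * v (2 : K) ^ j := mul_le_mul h1 hule (apply_nonneg v _) zero_le_one
      _ = _ := one_mul _
  have k2 : v (2 * y₀ * w) * v (2 : K) ^ e ≤ v (2 : K) ^ j := by
    rw [map_mul, map_mul]
    calc v (2 : K) * v y₀ * v w * v (2 : K) ^ e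
        = v (2 : K) * ((v y₀ * v (2 : K) ^ e) * v w) := by ring
      _ ≤ 1 * (1 * v (2 : K) ^ j) := by
        refine mul_le_mul t1 (mul_le_mul h2 hwle (apply_nonneg v _) zero_le_one) ?_ zero_le_one
        exact mul_nonneg (mul_nonneg (apply_nonneg v _) te) (apply_nonneg v _)
      _ = _ := by ring
  have k3 : v ((y₀ ^ 2 - a * x₀ ^ 2 - 2 * x₀ ^ 3) * u ^ 2) * v (2 : K) ^ e ≤ v (2 : K) ^ j := by
    rw [map_mul]
    calc v (y₀ ^ 2 - a * x₀ ^ 2 - 2 * x₀ ^ 3) * v (u ^ 2) * v (2 : K) ^ e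
        = (v (y₀ ^ 2 - a * x₀ ^ 2 - 2 * x₀ ^ 3) * v (2 : K) ^ e) * v (u ^ 2) := by ring
      _ ≤ 1 * v (2 : K) ^ j := mul_le_mul h3 hu2 (apply_nonneg v _) zero_le_one
      _ = _ := one_mul _
  have k4 := FinitePlace.add_le v ((b + 2 * a * x₀ + 3 * x₀ ^ 2) * u - 2 * y₀ * w)
    ((y₀ ^ 2 - a * x₀ ^ 2 - 2 * x₀ ^ 3) * u ^ 2)
  have k5 := pl_sub_le v ((b + 2 * a * x₀ + 3 * x₀ ^ 2) * u) (2 * y₀ * w)
  refine (mul_le_mul_of_nonneg_right k4 te).trans ?_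
  rw [max_mul_of_nonneg _ _ te]
  refine max_le ?_ k3
  refine (mul_le_mul_of_nonneg_right k5 te).trans ?_
  rw [max_mul_of_nonneg _ _ te]
  exact max_le k1 k2

theorem Start.exact {v : FinitePlace K} (hv : v (2 : K) < 1) {a b x₀ y₀ : K} {p : K × K}
    (h : Start v a b x₀ p) (hp : OnC a b p) (hy : y₀ ≠ 0) :
    ∃ j₀ : ℕ, ∀ j ≥ j₀, v (trX a b x₀ y₀ (itr a b p j) - x₀) =
      v (2 * y₀ * p.2) * v (2 : K) ^ j := by
  set B : ℝ := max (v (b + 2 * a * x₀ + 3 * x₀ ^ 2)) (v (y₀ ^ 2 - a * x₀ ^ 2 - 2 * x₀ ^ 3)) with hB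
  have t0 : 0 < v (2 : K) := two_pos_place v
  have hp2 : p.2 ≠ 0 := h.small.w_ne hp
  have hpos : 0 < v (2 * y₀ * p.2) := FinitePlace.pos_iff.2
    (mul_ne_zero (mul_ne_zero two_ne_zero hy) hp2)
  have hlim : Filter.Tendsto (fun j : ℕ => (B + 1) * v (2 : K) ^ j) Filter.atTop (nhds 0) := by
    have := (tendsto_pow_atTop_nhds_zero_of_lt_one t0.le hv).const_mul (B + 1)
    rwa [mul_zero] at this
  have hB0 : 0 ≤ B := le_max_of_le_left (apply_nonneg v _)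
  obtain ⟨j₀, hj₀⟩ := Filter.eventually_atTop.1 (hlim.eventually (gt_mem_nhds hpos))
  refine ⟨j₀, fun j hj => ?_⟩
  have hj' := hj₀ j hj
  obtain ⟨g1, g2, -, -⟩ := itr_props h.small hp j
  have hd := h.den hp j
  set u := (itr a b p j).1 with hu
  set w := (itr a b p j).2 with hw
  have e1 : trX a b x₀ y₀ (itr a b p j) - x₀ = (-(2 * y₀ * w) + ((b + 2 * a * x₀ + 3 * x₀ ^ 2) * u +
    (y₀ ^ 2 - a * x₀ ^ 2 - 2 * x₀ ^ 3) * u ^ 2)) / (1 - x₀ * u) ^ 2 := by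
    unfold trX
    rw [add_sub_cancel_left]
    congr 1
    ring
  have hw' : v (2 * y₀ * w) = v (2 * y₀ * p.2) * v (2 : K) ^ j := by
    rw [map_mul, map_mul v (2 * y₀) p.2, g2]
    ring
  have hu0 : v u = v (2 : K) ^ (2 * j) * v p.1 := g1
  have t1 : v (2 : K) ≤ 1 := two_le_place v
  have hu1 : v u ≤ v (2 : K) ^ (2 * j) := by
    rw [hu0]
    have := h.hu
    have h0 : 0 ≤ v (2 : K) ^ (2 * j) := by positivity
    nlinarith [apply_nonneg v p.1]
  have hu2 : v (u ^ 2) ≤ v (2 : K) ^ (2 * j) := by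
    rw [map_pow]
    have h0 : 0 ≤ v u := apply_nonneg v _
    have h1 : v (2 : K) ^ (2 * j) ≤ 1 := pow_le_one₀ t0.le t1
    nlinarith
  have hsmall : v ((b + 2 * a * x₀ + 3 * x₀ ^ 2) * u + (y₀ ^ 2 - a * x₀ ^ 2 - 2 * x₀ ^ 3) * u ^ 2) <
      v (-(2 * y₀ * w)) := by
    rw [map_neg_eq_map, hw']
    refine (FinitePlace.add_le v _ _).trans_lt ?_
    have k : ∀ c : K, ∀ z : K, v c ≤ B → v z ≤ v (2 : K) ^ (2 * j) →
        v (c * z) < v (2 * y₀ * p.2) * v (2 : K) ^ j := by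
      intro c z hc hz
      have tj : 0 < v (2 : K) ^ j := by positivity
      rw [map_mul]
      calc v c * v z ≤ B * v (2 : K) ^ (2 * j) :=
            mul_le_mul hc hz (apply_nonneg v _) hB0
        _ < ((B + 1) * v (2 : K) ^ j) * v (2 : K) ^ j := by
            rw [two_mul, pow_add]
            nlinarith [mul_pos tj tj]
        _ ≤ v (2 * y₀ * p.2) * v (2 : K) ^ j := by
            exact mul_le_mul_of_nonneg_right hj'.le tj.le
    exact max_lt (k _ _ (le_max_left _ _) hu1) (k _ _ (le_max_right _ _) hu2)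
  rw [e1, map_div₀, map_pow, hd, one_pow, div_one]
  have : v (-(2 * y₀ * w) + ((b + 2 * a * x₀ + 3 * x₀ ^ 2) * u +
      (y₀ ^ 2 - a * x₀ ^ 2 - 2 * x₀ ^ 3) * u ^ 2)) = v (-(2 * y₀ * w)) := by
    apply le_antisymm
    · exact (FinitePlace.add_le v _ _).trans (max_le le_rfl hsmall.le)
    · have h1 := pl_sub_le v (-(2 * y₀ * w) + ((b + 2 * a * x₀ + 3 * x₀ ^ 2) * u +
        (y₀ ^ 2 - a * x₀ ^ 2 - 2 * x₀ ^ 3) * u ^ 2)) ((b + 2 * a * x₀ + 3 * x₀ ^ 2) * u +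
        (y₀ ^ 2 - a * x₀ ^ 2 - 2 * x₀ ^ 3) * u ^ 2)
      rw [add_sub_cancel_right] at h1
      rcases le_max_iff.1 h1 with h2 | h2
      · exact h2
      · exact absurd h2 (not_le.2 hsmall)
  rw [this, map_neg_eq_map, hw']

end Pool.Agent.L0h52.VE
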